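import Pool.Agent.H91.VG.Geo
import Pool.Agent.H38.VG.Rel
import Pool.Agent.H38.VG.Bit

/-!
# The invariant of a smooth projective variety
-/

namespace H91.VG

open scoped TensorProduct

/-- The rings that are used. -/
structure Ctx (X : Coh) where
  S : Submonoid ℤ
  hS : ∀ n ∈ S, n ≠ 0
  hD : IsDedekindDomain (X.RS S)

namespace Ctx

variable {X : Coh} (c : Ctx X)

/-- The ring. -/
def Rg : Type := X.RS c.S

noncomputable instance : CommRing c.Rg := inferInstanceAs (CommRing (X.RS c.S))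

instance : IsDedekindDomain c.Rg := c.hD

/-- The field. -/
def Kg (_ : Ctx X) : Type := X.K

noncomputable instance : Field c.Kg := inferInstanceAs (Field X.K)

noncomputable instance : Algebra c.Rg c.Kg := X.algK c.hS

instance : IsFractionRing c.Rg c.Kg := X.isFractionRing c.hS

/-- The embedding in `ℂ`. -/
noncomputable def io : c.Kg →+* ℂ := X.K.subtype

/-- The hermitian lattice of a unimodular Hodge lattice. -/
noncomputable def amb (V : HLat) : AmbData c.Rg c.io where
  W := V.C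
  L := LS X c.S V
  fg := by
    obtain ⟨G, hG, h⟩ := LS_fg X c.S c.hS V
    refine ⟨G, hG, fun x hx => ?_⟩
    have h1 := h x hx
    have h2 : {y : V.C | ∃ r ∈ X.RS c.S, ∃ s ∈ G, y = r • s}
        ⊆ {y : V.C | ∃ r : c.Rg, ∃ s ∈ G, y = c.io (algebraMap c.Rg c.Kg r) • s} := by
      rintro y ⟨r, hr, s, hs, rfl⟩
      exact ⟨⟨r, hr⟩, s, hs, rfl⟩
    exact AddSubgroup.closure_mono h2 h1
  smul_mem := fun e x hx => LS_smul hx e.2
  H := HV X V
  add_left := HV_add_left
  add_right := HV_add_right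
  smul_left := HV_smul_left
  smul_right := HV_smul_right
  range := fun x hx y hy => ⟨⟨HV X V x y, HV_mem_K c.hS hx hy⟩, rfl⟩
  nondeg := fun x hx hx0 => HV_nondeg_LS c.hS hx hx0

/-- The invariant. -/
noncomputable def chi (V : HLat) := (c.amb V).toHerm.chi

/-- **The invariants of L-equivalent Verra fourfolds agree.** -/
theorem chi_eq (D : VerraData) (Y Z : D.Verra) (h : D.LEq Y Z) :
    c.chi (D.ev (D.var Y)) = c.chi (D.ev (D.var Z)) := by
  refine eq_of_lEq D _ (fun W => c.chi (D.ev W)) ?_ (HermMod.lef c.Rg c.Kg c.io)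
    (HermMod.lef_injective) ?_ Y Z h
  · intro W Z B E m hb
    obtain ⟨fE, hLE, h0E, h1E⟩ := exists_bundle (D.ev_E W Z B E m hb)
    obtain ⟨f, hL, h11, h12, h21, h0, h1⟩ := exists_blowUp (D.ev_B W Z B E m hb)
    exact AmbData.chi_blow (c.amb (D.ev W)) (c.amb (D.ev Z)) (c.amb (D.ev E)) (c.amb (D.ev B)) m
      fE (hLE X c.S) (h0E X) (h1E X) f (hL X c.S) (h11 X) (h12 X) (h21 X) (h0 X) (h1 X)
  · intro W
    obtain ⟨f, hL, h0, h1⟩ := exists_bundle (D.ev_P1 W)
    exact AmbData.chi_P1 (c.amb (D.ev W)) (c.amb (D.ev (D.P1 W))) f (hL X c.S) (h0 X) (h1 X)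

end Ctx

end H91.VG
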