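import Pool.Agent.H91.VG.Defs
import Pool.Agent.H91.VF.Forms

/-!
# Linear algebra of unimodular Hodge lattices
-/

namespace H91.VG

open scoped TensorProduct

theorem mapC_eq {L M : Lat} (f : L.Hom M) (x : L.C) : mapC f x = f.baseChange ℂ x := rfl

theorem qC_eq (L : Lat) (x y : L.C) : L.qC x y = L.form.baseChange ℂ x y := rfl

theorem conj_eq (L : Lat) (x : L.C) : L.conj x = H91.VF.conj L.V x := rfl

theorem q_eq (L : Lat) (x y : L.V) : L.q x y = L.form x y := rfl

namespace Lat

variable (L M N : Lat)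

theorem conj_conj (x : L.C) : L.conj (L.conj x) = x := H91.VF.conj_conj x

theorem conj_add (x y : L.C) : L.conj (x + y) = L.conj x + L.conj y := by
  simp only [conj_eq, map_add]

theorem conj_smul (c : ℂ) (x : L.C) : L.conj (c • x) = (starRingEnd ℂ c) • L.conj x :=
  H91.VF.conj_smul c x

theorem conj_zero : L.conj 0 = 0 := by
  simp only [conj_eq, map_zero]

theorem conj_one (v : L.V) : L.conj (L.one v) = L.one v := H91.VF.conj_one_tmul v

theorem conj_ne_zero {x : L.C} (hx : x ≠ 0) : L.conj x ≠ 0 := H91.VF.conj_ne_zero hx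

theorem qC_add_left (x y z : L.C) : L.qC (x + y) z = L.qC x z + L.qC y z := by
  simp only [qC_eq, map_add, LinearMap.add_apply]

theorem qC_add_right (x y z : L.C) : L.qC x (y + z) = L.qC x y + L.qC x z := by
  simp only [qC_eq, map_add]

theorem qC_smul_left (c : ℂ) (x y : L.C) : L.qC (c • x) y = c * L.qC x y := by
  simp only [qC_eq, map_smul, LinearMap.smul_apply, smul_eq_mul]

theorem qC_smul_right (c : ℂ) (x y : L.C) : L.qC x (c • y) = c * L.qC x y := by
  simp only [qC_eq, map_smul, smul_eq_mul]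

theorem qC_zero_left (y : L.C) : L.qC 0 y = 0 := by
  simp only [qC_eq, map_zero, LinearMap.zero_apply]

theorem qC_zero_right (x : L.C) : L.qC x 0 = 0 := by
  simp only [qC_eq, map_zero]

theorem qC_symm (x y : L.C) : L.qC x y = L.qC y x := H91.VF.bc_symm _ L.symm x y

theorem q_symm (x y : L.V) : L.q x y = L.q y x := L.symm x y

theorem q_add_left (x y z : L.V) : L.q (x + y) z = L.q x z + L.q y z := by
  simp only [q_eq, map_add, LinearMap.add_apply]

theorem q_add_right (x y z : L.V) : L.q x (y + z) = L.q x y + L.q x z := by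
  simp only [q_eq, map_add]

theorem q_smul_left (n : ℤ) (x y : L.V) : L.q (n • x) y = n * L.q x y := by
  simp only [q_eq, map_smul, LinearMap.smul_apply, smul_eq_mul]

theorem q_smul_right (n : ℤ) (x y : L.V) : L.q x (n • y) = n * L.q x y := by
  simp only [q_eq, map_smul, smul_eq_mul]

theorem q_zero_left (y : L.V) : L.q 0 y = 0 := by
  simp only [q_eq, map_zero, LinearMap.zero_apply]

theorem q_zero_right (x : L.V) : L.q x 0 = 0 := by
  simp only [q_eq, map_zero]

theorem one_add (v w : L.V) : L.one (v + w) = L.one v + L.one w := by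
  simp only [Lat.one, TensorProduct.tmul_add]

theorem one_smul (n : ℤ) (v : L.V) : L.one (n • v) = n • L.one v := by
  simp only [Lat.one, TensorProduct.tmul_smul]

theorem one_injective : Function.Injective L.one := H91.VF.one_tmul_injective L.V

theorem qC_one_one (v w : L.V) : L.qC (L.one v) (L.one w) = (L.q v w : ℂ) := by
  rw [qC_eq, Lat.one, Lat.one, LinearMap.BilinForm.baseChange_tmul]
  simp [q_eq]

theorem qC_conj (x y : L.C) : L.qC (L.conj x) (L.conj y) = starRingEnd ℂ (L.qC x y) :=
  H91.VF.bc_conj _ x y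

/-- `ℂ ⊗ L` is spanned by `1 ⊗ L`. -/
theorem C_induction {P : L.C → Prop} (h1 : ∀ (c : ℂ) (v : L.V), P (c • L.one v))
    (h2 : ∀ x y, P x → P y → P (x + y)) (x : L.C) : P x := by
  induction x using TensorProduct.induction_on with
  | zero =>
    have := h1 0 0
    rwa [zero_smul] at this
  | tmul c v =>
    have := h1 c v
    rwa [Lat.one, TensorProduct.smul_tmul', smul_eq_mul, mul_one] at this
  | add x y hx hy => exact h2 x y hx hy

end Lat

section mapC

variable {L M N : Lat}

theorem mapC_add (f : L.Hom M) (x y : L.C) : mapC f (x + y) = mapC f x + mapC f y := by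
  simp only [mapC_eq, map_add]

theorem mapC_smul (f : L.Hom M) (c : ℂ) (x : L.C) : mapC f (c • x) = c • mapC f x := by
  simp only [mapC_eq, map_smul]

theorem mapC_zero (f : L.Hom M) : mapC f 0 = 0 := by
  simp only [mapC_eq, map_zero]

theorem mapC_one (f : L.Hom M) (v : L.V) : mapC f (L.one v) = M.one (f v) := by
  simp only [mapC_eq, Lat.one, LinearMap.baseChange_tmul]

theorem mapC_conj (f : L.Hom M) (x : L.C) : M.conj (mapC f x) = mapC f (L.conj x) :=
  H91.VF.conj_baseChange f x

theorem mapC_comp (f : L.Hom M) (g : M.Hom N) (x : L.C) :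
    mapC (g ∘ₗ f : L.Hom N) x = mapC g (mapC f x) := by
  simp only [mapC_eq, LinearMap.baseChange_comp, LinearMap.comp_apply]

theorem mapC_id (x : L.C) : mapC (LinearMap.id : L.Hom L) x = x := by
  simp only [mapC_eq, LinearMap.baseChange_id, LinearMap.id_apply]

theorem mapC_map_add (f g : L.Hom M) (x : L.C) :
    mapC (f + g : L.Hom M) x = mapC f x + mapC g x := by
  simp only [mapC_eq, LinearMap.baseChange_add, LinearMap.add_apply]

theorem mapC_map_smul (n : ℤ) (f : L.Hom M) (x : L.C) :
    mapC (n • f : L.Hom M) x = n • mapC f x := by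
  simp only [mapC_eq, LinearMap.baseChange_smul, LinearMap.smul_apply]

theorem mapC_map_neg (f : L.Hom M) (x : L.C) : mapC (-f : L.Hom M) x = -mapC f x := by
  simp only [mapC_eq, LinearMap.baseChange_neg, LinearMap.neg_apply]

theorem mapC_map_zero (x : L.C) : mapC (0 : L.Hom M) x = 0 := by
  simp only [mapC_eq, LinearMap.baseChange_zero, LinearMap.zero_apply]

theorem mapC_injective {f : L.Hom M} (hf : Function.Injective f) :
    Function.Injective (mapC f) := H91.VF.baseChange_injective f hf

/-- Identities between forms extend to complex coefficients. -/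
theorem qC_ext {A B L M : Lat} (f : A.Hom L) (g : B.Hom L) (f' : A.Hom M) (g' : B.Hom M) (n : ℤ)
    (h : ∀ a b, L.q (f a) (g b) = n * M.q (f' a) (g' b)) (x : A.C) (y : B.C) :
    L.qC (mapC f x) (mapC g y) = n * M.qC (mapC f' x) (mapC g' y) := by
  induction x using Lat.C_induction with
  | h1 c v =>
    induction y using Lat.C_induction with
    | h1 d w =>
      simp only [mapC_smul, mapC_one, Lat.qC_smul_left, Lat.qC_smul_right, Lat.qC_one_one, h]
      push_cast
      ring
    | h2 y z hy hz =>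
      simp only [mapC_add, Lat.qC_add_right, hy, hz]
      ring
  | h2 x z hx hz =>
    simp only [mapC_add, Lat.qC_add_left, hx, hz]
    ring

end mapC

namespace HLat

variable (A B : HLat)

/-- Dual vectors. -/
theorem exists_dual {ι : Type} [Finite ι] [DecidableEq ι] (b : Module.Basis ι ℤ A.V) :
    ∃ d : ι → A.V, ∀ i j, A.q (d i) (b j) = if i = j then 1 else 0 := by
  have h : ∀ i, ∃ v, ∀ w, A.q v w = b.coord i w := fun i => A.unimod.2 (b.coord i)
  choose d hd using h
  refine ⟨d, fun i j => ?_⟩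
  rw [hd, Module.Basis.coord_apply, b.repr_self, Finsupp.single_apply]
  by_cases hij : i = j
  · subst hij; simp
  · rw [if_neg hij, if_neg (fun h => hij h.symm)]

/-- The complex form is nondegenerate. -/
theorem nondegC {x : A.C} (h : ∀ v : A.V, A.qC (A.one v) x = 0) : x = 0 := by
  classical
  let b := Module.Free.chooseBasis ℤ A.V
  obtain ⟨d, hd⟩ := A.exists_dual b
  let bC := b.baseChange ℂ
  rw [← bC.sum_repr x]
  refine Finset.sum_eq_zero fun i _ => ?_
  have h1 : A.qC (A.one (d i)) x = bC.repr x i := by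
    have h2 : A.qC (A.one (d i)) x = A.qC (A.one (d i)) (∑ j, bC.repr x j • bC j) := by
      rw [bC.sum_repr x]
    rw [h2, qC_eq, map_sum]
    have h3 : ∀ j, (A.form.baseChange ℂ (A.one (d i))) (bC.repr x j • bC j)
        = if i = j then bC.repr x j else 0 := by
      intro j
      rw [map_smul, smul_eq_mul]
      have h4 : (A.form.baseChange ℂ (A.one (d i))) (bC j) = ((A.q (d i) (b j) : ℤ) : ℂ) := by
        rw [← Lat.qC_one_one]
        simp only [bC, Module.Basis.baseChange_apply]
        rfl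
      rw [h4, hd]
      split_ifs <;> simp
    rw [Finset.sum_congr rfl fun j _ => h3 j]
    simp
  rw [← h1, h, zero_smul]

/-- The isomorphism with the direct sum of the Hodge pieces. -/
noncomputable def dec : (DirectSum ℤ fun p => A.H p) ≃ₗ[ℂ] A.C :=
  LinearEquiv.ofBijective (DirectSum.coeLinearMap A.H) A.internal

/-- Projection to the part of type `(p, 4 - p)`. -/
noncomputable def pr (p : ℤ) : A.C →ₗ[ℂ] A.C :=
  (A.H p).subtype ∘ₗ (DirectSum.component ℂ ℤ (fun p => A.H p) p) ∘ₗ A.dec.symm.toLinearMap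

theorem pr_mem (p : ℤ) (x : A.C) : A.Is p (A.pr p x) :=
  (DirectSum.component ℂ ℤ (fun p => A.H p) p (A.dec.symm x)).2

theorem dec_lof (p : ℤ) (x : A.H p) : A.dec.symm (x : A.C) = DirectSum.lof ℂ ℤ _ p x := by
  rw [LinearEquiv.symm_apply_eq]
  show (x : A.C) = DirectSum.coeLinearMap A.H (DirectSum.lof ℂ ℤ _ p x)
  rw [DirectSum.coeLinearMap_lof]

theorem pr_of_mem {p : ℤ} {x : A.C} (hx : A.Is p x) : A.pr p x = x := by
  have h := A.dec_lof p ⟨x, hx⟩
  unfold pr
  rw [LinearMap.comp_apply, LinearMap.comp_apply]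
  have h1 : A.dec.symm.toLinearMap x = DirectSum.lof ℂ ℤ _ p ⟨x, hx⟩ := h
  rw [h1, DirectSum.component.lof_self]
  rfl

theorem pr_of_ne {p r : ℤ} {x : A.C} (hx : A.Is r x) (h : r ≠ p) : A.pr p x = 0 := by
  have h1 := A.dec_lof r ⟨x, hx⟩
  unfold pr
  rw [LinearMap.comp_apply, LinearMap.comp_apply]
  have h2 : A.dec.symm.toLinearMap x = DirectSum.lof ℂ ℤ _ r ⟨x, hx⟩ := h1
  rw [h2, DirectSum.component.of]
  rw [dif_neg h]
  rfl

theorem eq_zero_of_pr {x : A.C} (h : ∀ p, A.pr p x = 0) : x = 0 := by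
  have h1 : A.dec.symm x = 0 := by
    refine DFinsupp.ext fun p => ?_
    apply Subtype.ext
    exact h p
  simpa using h1

/-- Induction over homogeneous elements. -/
theorem hom_induction {P : A.C → Prop} (h1 : ∀ p x, A.Is p x → P x)
    (h2 : ∀ x y, P x → P y → P (x + y)) (x : A.C) : P x := by
  have h3 : x ∈ ⨆ p, A.H p := by
    rw [A.internal.submodule_iSup_eq_top]
    exact Submodule.mem_top
  induction h3 using Submodule.iSup_induction' with
  | mem p x hx => exact h1 p x hx
  | zero => exact h1 0 0 (Submodule.zero_mem _)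
  | add x y _ _ hx hy => exact h2 x y hx hy

theorem is_of_pr {p : ℤ} {x : A.C} (h : ∀ r, r ≠ p → A.pr r x = 0) : A.Is p x := by
  have h1 : x - A.pr p x = 0 := by
    apply A.eq_zero_of_pr
    intro r
    rw [map_sub]
    by_cases hr : r = p
    · subst hr
      rw [A.pr_of_mem (A.pr_mem r x), sub_self]
    · rw [h r hr, A.pr_of_ne (A.pr_mem p x) (fun h => hr h.symm), sub_zero]
  rw [sub_eq_zero] at h1
  rw [h1]
  exact A.pr_mem p x

theorem qC_orth {p r : ℤ} {x y : A.C} (hx : A.Is p x) (hy : A.Is r y) (h : p + r ≠ 4) :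
    A.qC x y = 0 := A.orth p r x y hx hy h

/-- The projections are adjoint. -/
theorem qC_pr (p : ℤ) (x y : A.C) : A.qC x (A.pr p y) = A.qC (A.pr (4 - p) x) y := by
  induction x using A.hom_induction with
  | h1 a x hx =>
    induction y using A.hom_induction with
    | h1 b y hy =>
      by_cases hb : b = p
      · subst hb
        rw [A.pr_of_mem hy]
        by_cases ha : a = 4 - b
        · subst ha
          rw [A.pr_of_mem hx]
        · rw [A.pr_of_ne hx ha, Lat.qC_zero_left]
          exact A.qC_orth hx hy (by omega)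
      · rw [A.pr_of_ne hy hb, Lat.qC_zero_right]
        by_cases ha : a = 4 - p
        · subst ha
          rw [A.pr_of_mem hx]
          exact (A.qC_orth hx hy (by omega)).symm
        · rw [A.pr_of_ne hx ha, Lat.qC_zero_left]
    | h2 y z hy hz =>
      rw [map_add, Lat.qC_add_right, Lat.qC_add_right, hy, hz]
  | h2 x z hx hz =>
    rw [map_add, Lat.qC_add_left, Lat.qC_add_left, hx, hz]

/-- A class is of type `p` if it is orthogonal to all types but `4 - p`. -/
theorem is_of_orth {p : ℤ} {x : A.C}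
    (h : ∀ r y, r ≠ 4 - p → A.Is r y → A.qC y x = 0) : A.Is p x := by
  apply A.is_of_pr
  intro r hr
  apply A.nondegC
  intro v
  rw [A.qC_pr]
  exact h (4 - r) _ (by omega) (A.pr_mem _ _)

variable {A B}

/-- Morphisms commute with the projections. -/
theorem Mor.pr {f : A.Hom B.toLat} (hf : A.Mor B f) (p : ℤ) (x : A.C) :
    mapC f (A.pr p x) = B.pr p (mapC f x) := by
  induction x using A.hom_induction with
  | h1 a x hx =>
    by_cases ha : a = p
    · subst ha
      rw [A.pr_of_mem hx, B.pr_of_mem (hf a x hx)]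
    · rw [A.pr_of_ne hx ha, mapC_zero, B.pr_of_ne (hf a x hx) ha]
  | h2 x y hx hy =>
    rw [map_add, mapC_add, mapC_add, map_add, hx, hy]

theorem mem_hdg {v : A.V} : v ∈ A.hdg ↔ A.Is 2 (A.one v) := Iff.rfl

theorem Mor.hdg {f : A.Hom B.toLat} (hf : A.Mor B f) {v : A.V} (hv : v ∈ A.hdg) :
    f v ∈ B.hdg := by
  have h := hf 2 (A.one v) hv
  rw [mapC_one] at h
  exact h

theorem Mor.comp {D : HLat} {f : A.Hom B.toLat} {g : B.Hom D.toLat} (hf : A.Mor B f)
    (hg : B.Mor D g) : A.Mor D (g ∘ₗ f) := by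
  intro p x hx
  rw [mapC_comp]
  exact hg p _ (hf p x hx)

theorem mem_T {t : A.V} : t ∈ A.form.orthogonal A.hdg ↔ ∀ v ∈ A.hdg, A.q v t = 0 := Iff.rfl

variable (A)

/-- The element of `T_A` given by a vector of `A` orthogonal to the Hodge classes. -/
def mkT (t : A.V) (h : ∀ v ∈ A.hdg, A.q v t = 0) : A.T.V := ⟨t, h⟩

theorem incl_mkT (t : A.V) (h : ∀ v ∈ A.hdg, A.q v t = 0) : A.incl (A.mkT t h) = t := rfl

theorem incl_orth (t : A.T.V) {v : A.V} (hv : v ∈ A.hdg) : A.q v (A.incl t) = 0 := t.2 v hv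

theorem incl_injective : Function.Injective A.incl := Subtype.val_injective

theorem q_incl (s t : A.T.V) : A.q (A.incl s) (A.incl t) = A.T.q s t := rfl

/-- The adjoint of a homomorphism between unimodular lattices. -/
theorem exists_adjoint {B : HLat} (f : A.Hom B.toLat) :
    ∃ g : B.Hom A.toLat, ∀ a b, A.q (g b) a = B.q b (f a) := by
  have h : ∀ b : B.V, ∃ v : A.V, ∀ a, A.q v a = B.q b (f a) := by
    intro b
    obtain ⟨v, hv⟩ := A.unimod.2 ((B.form b) ∘ₗ f)
    exact ⟨v, fun a => by rw [hv]; rfl⟩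
  choose g hg using h
  have huniq : ∀ v w : A.V, (∀ a, A.q v a = A.q w a) → v = w := by
    intro v w h
    rw [← sub_eq_zero]
    apply A.unimod.1
    intro y
    rw [sub_eq_add_neg, Lat.q_add_left, ← neg_one_zsmul, Lat.q_smul_left, h]
    ring
  refine ⟨(AddMonoidHom.mk' g ?_).toIntLinearMap, fun a b => hg b a⟩
  intro b b'
  apply huniq
  intro a
  rw [hg, Lat.q_add_left, Lat.q_add_left, hg, hg]

end HLat

end H91.VG
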