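import Pool.Agent.H91.VG.Ring

/-!
# Dedekind rings of eigenvalues
-/

namespace H91.VG

open scoped TensorProduct

namespace Coh

variable (X : Coh)

theorem RS_le {S : Submonoid ℤ} (hS : ∀ n ∈ S, n ≠ 0) : X.RS S ≤ X.K.toSubring :=
  fun _ hz => X.RS_le_K hS hz

/-- `K` as an algebra over `RS S`. -/
@[reducible] def algK {S : Submonoid ℤ} (hS : ∀ n ∈ S, n ≠ 0) : Algebra (X.RS S) X.K :=
  (Subring.inclusion (X.RS_le hS)).toAlgebra

theorem isFractionRing {S : Submonoid ℤ} (hS : ∀ n ∈ S, n ≠ 0) :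
    @IsFractionRing (X.RS S) _ X.K _ (X.algK hS) := by
  letI := X.algK hS
  have hinj : Function.Injective (algebraMap (X.RS S) X.K) := by
    intro a b hab
    apply Subtype.ext
    exact congrArg (fun z : X.K => (z : ℂ)) hab
  have : FaithfulSMul (X.RS S) X.K := (faithfulSMul_iff_algebraMap_injective _ _).mpr hinj
  apply IsFractionRing.of_field
  intro z
  obtain ⟨n, hn, hz⟩ := z.2
  refine ⟨⟨n * z, X.R_le_RS S hz⟩, ⟨n, intCast_mem _ n⟩, ?_⟩
  apply Subtype.ext
  have hn' : (n : ℂ) ≠ 0 := by exact_mod_cast hn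
  have h1 : ((algebraMap (X.RS S) X.K ⟨n * z, X.R_le_RS S hz⟩ /
      algebraMap (X.RS S) X.K ⟨n, intCast_mem _ n⟩ : X.K) : ℂ) = (n * z) / n := rfl
  rw [h1, mul_div_cancel_left₀ _ hn']

/-- Eigenvalues of polynomials. -/
theorem eig_aeval {e : X.T.Hom X.T} {z : ℂ} (h : mapC e X.om = z • X.om)
    (P : Polynomial ℤ) :
    mapC (L := X.T) (M := X.T) (Polynomial.aeval (R := ℤ) (A := Module.End ℤ X.T.V) e P) X.om
      = (Polynomial.aeval z P) • X.om := by
  induction P using Polynomial.induction_on with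
  | C a =>
    rw [Polynomial.aeval_C, Polynomial.aeval_C]
    have h1 : (algebraMap ℤ (Module.End ℤ X.T.V) a : X.T.Hom X.T)
        = (a • LinearMap.id : X.T.Hom X.T) := by
      ext t
      simp
    rw [h1, mapC_map_smul, mapC_id, ← Int.cast_smul_eq_zsmul ℂ]
    simp
  | add p q hp hq =>
    rw [map_add, map_add, add_smul, ← hp, ← hq]
    exact mapC_map_add _ _ _
  | monomial n a ih =>
    have hL : Polynomial.aeval (R := ℤ) (A := Module.End ℤ X.T.V) e
        (Polynomial.C a * Polynomial.X ^ n * Polynomial.X)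
        = Polynomial.aeval (R := ℤ) (A := Module.End ℤ X.T.V) e
          (Polynomial.C a * Polynomial.X ^ n) * (e : Module.End ℤ X.T.V) := by
      rw [map_mul, Polynomial.aeval_X]
    have hR : Polynomial.aeval z (Polynomial.C a * Polynomial.X ^ n * Polynomial.X)
        = Polynomial.aeval z (Polynomial.C a * Polynomial.X ^ n) * z := by
      rw [map_mul, Polynomial.aeval_X]
    rw [pow_succ, ← mul_assoc, hL, hR]
    have h1 : mapC (L := X.T) (M := X.T)
        (Polynomial.aeval (R := ℤ) (A := Module.End ℤ X.T.V) e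
          (Polynomial.C a * Polynomial.X ^ n) * (e : Module.End ℤ X.T.V)) X.om
        = mapC (L := X.T) (M := X.T)
          (Polynomial.aeval (R := ℤ) (A := Module.End ℤ X.T.V) e
            (Polynomial.C a * Polynomial.X ^ n)) (mapC e X.om) := mapC_comp e _ X.om
    rw [h1, h, mapC_smul, ih, smul_smul, mul_comm]

theorem R_finite : Module.Finite ℤ X.R := Module.Finite.iff_fg.mpr X.R_fg

theorem RS_bot_eq : X.RS ⊥ = X.R := by
  ext z
  exact X.mem_RS_bot

theorem isIntegral_of_mem_R {z : ℂ} (hz : z ∈ X.R) : IsIntegral ℤ z := by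
  have := X.R_finite
  have h1 : IsIntegral ℤ (⟨z, hz⟩ : X.R) := Algebra.IsIntegral.isIntegral _
  exact h1.map (X.R.subtype.toIntAlgHom)

/-- **The ring of eigenvalues is Dedekind if `O_X` is integrally closed.** -/
theorem isDedekind_R (h : OIntClosed X.toHLat) : IsDedekindDomain (X.RS ⊥) := by
  have hS : ∀ n ∈ (⊥ : Submonoid ℤ), n ≠ 0 := by
    intro n hn
    rw [Submonoid.mem_bot] at hn
    rw [hn]
    exact one_ne_zero
  letI := X.algK hS
  have := X.isFractionRing hS
  have hfin : Module.Finite ℤ (X.RS ⊥) := by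
    have h1 := X.R_fg
    rw [← X.RS_bot_eq] at h1
    exact Module.Finite.iff_fg.mpr h1
  have hint : Algebra.IsIntegral ℤ (X.RS ⊥) := inferInstance
  have hnoeth : IsNoetherianRing (X.RS ⊥) := IsNoetherianRing.of_finite ℤ (X.RS ⊥)
  have hdim : Ring.DimensionLEOne (X.RS ⊥) := Ring.DimensionLEOne.of_isIntegral ℤ _
  have hic : ∀ {x : X.K}, IsIntegral (X.RS ⊥) x → ∃ y, algebraMap (X.RS ⊥) X.K y = x := by
    intro x hx
    -- `x` is integral over `ℤ`
    have : IsScalarTower ℤ (X.RS ⊥) X.K := inferInstance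
    have hxZ : IsIntegral ℤ x := isIntegral_trans x hx
    obtain ⟨n, hn, hz⟩ := x.2
    obtain ⟨e, he, hez⟩ := hz
    obtain ⟨p, hp, hpx⟩ := hxZ
    have hpx' : Polynomial.aeval (x : ℂ) p = 0 := by
      have h2 := Polynomial.hom_eval₂ p (algebraMap ℤ X.K) X.K.subtype x
      rw [hpx, map_zero] at h2
      have h3 : X.K.subtype.comp (algebraMap ℤ X.K) = algebraMap ℤ ℂ := Subsingleton.elim _ _
      rw [h3] at h2
      exact h2.symm
    have h4 : Polynomial.aeval (R := ℤ) (A := Module.End ℤ X.T.V) e (p.scaleRoots n) = 0 := by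
      apply X.hom_eq_zero_of_om (L := X.T)
      have h5 := X.eig_aeval hez (p.scaleRoots n)
      rw [h5]
      have h6 : Polynomial.aeval ((n : ℂ) * (x : ℂ)) (p.scaleRoots n) = 0 := by
        have := Polynomial.scaleRoots_aeval_eq_zero (r := n) hpx'
        simpa using this
      rw [h6, zero_smul]
    obtain ⟨e', he', hee'⟩ := h e n he.1 hn ⟨p, hp, h4⟩
    refine ⟨⟨x, ?_⟩, rfl⟩
    rw [X.mem_RS_bot]
    refine ⟨e', he', ?_⟩
    have h7 : e = (n • e' : X.T.Hom X.T) := by
      ext t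
      exact hee' t
    have h8 : (n : ℂ) • mapC e' X.om = ((n : ℂ) * (x : ℂ)) • X.om := by
      rw [← hez, h7, mapC_map_smul, Int.cast_smul_eq_zsmul]
    rw [mul_smul] at h8
    have hn' : (n : ℂ) ≠ 0 := by exact_mod_cast hn
    exact smul_right_injective _ hn' h8
  have h1 : IsDedekindRing (X.RS ⊥) := (isDedekindRing_iff (X.RS ⊥) X.K).mpr ⟨hnoeth, hdim, hic⟩
  exact { toIsDomain := inferInstance, toIsDedekindRing := h1 }

/-- All nonzero denominators. -/
def Sall : Submonoid ℤ := nonZeroDivisors ℤ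

theorem mem_Sall {n : ℤ} : n ∈ Sall ↔ n ≠ 0 := mem_nonZeroDivisors_iff_ne_zero

theorem mem_RS_all {z : ℂ} : z ∈ X.RS Sall ↔ z ∈ X.K := by
  constructor
  · rintro ⟨n, hn, h⟩
    exact ⟨n, mem_Sall.mp hn, h⟩
  · rintro ⟨n, hn, h⟩
    exact ⟨n, mem_Sall.mpr hn, h⟩

theorem isField_RS_all : IsField (X.RS Sall) where
  exists_pair_ne := ⟨0, 1, zero_ne_one⟩
  mul_comm := mul_comm
  mul_inv_cancel := by
    rintro ⟨a, ha⟩ h0
    have ha' : a ≠ 0 := fun h => h0 (Subtype.ext h)
    refine ⟨⟨a⁻¹, ?_⟩, ?_⟩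
    · rw [X.mem_RS_all] at ha ⊢
      exact X.K.inv_mem ha
    · apply Subtype.ext
      exact mul_inv_cancel₀ ha'

theorem isDedekind_all : IsDedekindDomain (X.RS Sall) := by
  let _ : Field (X.RS Sall) := X.isField_RS_all.toField
  infer_instance

end Coh

end H91.VG
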