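import Mathlib

/-!
# Verra fourfolds: lattices, Hodge structures, the published theorems

Definitions used in `Results/MP_bb4c81_ag`.
-/

namespace H91.VG

open scoped TensorProduct

/-! ## Lattices -/

/-- A lattice: a finitely generated free abelian group with a symmetric integral bilinear form. -/
structure Lat where
  V : Type
  [acg : AddCommGroup V]
  [free : Module.Free ℤ V]
  [fin : Module.Finite ℤ V]
  form : LinearMap.BilinForm ℤ V
  symm : ∀ x y, form x y = form y x

attribute [instance] Lat.acg Lat.free Lat.fin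

/-- Homomorphisms of abelian groups. -/
abbrev Lat.Hom (L M : Lat) : Type := L.V →ₗ[ℤ] M.V

/-- The form of a lattice. -/
def Lat.q (L : Lat) (x y : L.V) : ℤ := L.form x y

/-- Rank of a lattice. -/
noncomputable def Lat.rk (L : Lat) : ℕ := Module.finrank ℤ L.V

/-- `q(x,x)` is even for all `x`. -/
def Lat.Even (L : Lat) : Prop := ∀ x, 2 ∣ L.q x x

/-- The form has trivial radical. -/
def Lat.Nondeg (L : Lat) : Prop := ∀ x, (∀ y, L.q x y = 0) → x = 0

/-- Unimodular: trivial radical, and every integral functional is `q(v, ·)`. -/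
def Lat.Unimod (L : Lat) : Prop := L.Nondeg ∧ ∀ l : L.V →ₗ[ℤ] ℤ, ∃ v, ∀ w, L.q v w = l w

/-- A primitive isometric embedding. -/
structure PrimEmb (T L : Lat) (i : T.Hom L) : Prop where
  inj : Function.Injective i
  isom : ∀ x y, L.q (i x) (i y) = T.q x y
  sat : ∀ (v : L.V) (n : ℤ), n ≠ 0 → (∃ t, i t = n • v) → ∃ t, i t = v

/-- The `p`-part of the discriminant group `T^*/T` is generated by `k` elements, that is
`l(A_{T,p}) ≤ k`. -/
def Lat.GenP (T : Lat) (p : ℕ) (k : ℕ) : Prop :=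
  ∃ s : Fin k → (T.V →ₗ[ℤ] ℤ), ∀ l : T.V →ₗ[ℤ] ℤ, ∃ (m : ℤ) (t : T.V) (c : Fin k → ℤ),
    ¬ (p : ℤ) ∣ m ∧ ∀ x, m * l x = T.q t x + ∑ i, c i * s i x

/-- The discriminant quadratic form of `T` splits off `u(2)`: there are `x/2`, `y/2` in `T^*/T`
of square `0` modulo `2` and product `1/2` modulo `1`. -/
def Lat.SplitU2 (T : Lat) : Prop :=
  ∃ x y : T.V, (∀ t, 2 ∣ T.q x t) ∧ (∀ t, 2 ∣ T.q y t) ∧ 8 ∣ T.q x x ∧ 8 ∣ T.q y y ∧
    4 ∣ T.q x y - 2

/-- Nikulin, *Integral symmetric bilinear forms and some of their applications*,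
Theorem 1.14.4 (the uniqueness part): a primitive embedding of an even nondegenerate lattice `T`
in an even unimodular lattice `L` is unique up to `O(L)` if the orthogonal complement is
indefinite, `l(A_{T,p}) ≤ rk L - rk T - 2` for all odd primes `p`, and, in case
`l(A_{T,2}) = rk L - rk T`, the form on `A_{T,2}` splits off `u(2)`. -/
def Nikulin1144 : Prop :=
  ∀ (L T : Lat), L.Even → L.Unimod → T.Even → T.Nondeg →
    ∀ (i j : T.Hom L), PrimEmb T L i → PrimEmb T L j →
    (∃ x y : L.V, (∀ t, L.q x (i t) = 0) ∧ (∀ t, L.q y (i t) = 0) ∧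
      0 < L.q x x ∧ L.q y y < 0) →
    (∀ p : ℕ, p.Prime → p ≠ 2 → T.GenP p (L.rk - T.rk - 2)) →
    (T.GenP 2 (L.rk - T.rk - 1) ∨ T.SplitU2) →
    ∃ g : L.Hom L, Function.Bijective g ∧ (∀ x y, L.q (g x) (g y) = L.q x y) ∧
      ∀ t, g (i t) = j t

/-! ## Complex coefficients -/

/-- `ℂ ⊗ L`. -/
abbrev Lat.C (L : Lat) : Type := ℂ ⊗[ℤ] L.V

/-- The embedding `L → ℂ ⊗ L`. -/
noncomputable def Lat.one (L : Lat) (v : L.V) : L.C := (1 : ℂ) ⊗ₜ[ℤ] v

/-- Complex conjugation on `ℂ ⊗ L`. -/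
noncomputable def Lat.conj (L : Lat) (x : L.C) : L.C :=
  TensorProduct.map ((starRingEnd ℂ).toAddMonoidHom.toIntLinearMap) LinearMap.id x

/-- The `ℂ`-bilinear extension of a form. -/
noncomputable def extC {V : Type} [AddCommGroup V] (Q : LinearMap.BilinForm ℤ V)
    (x y : ℂ ⊗[ℤ] V) : ℂ :=
  Q.baseChange ℂ x y

/-- The `ℂ`-bilinear extension of the form of a lattice. -/
noncomputable def Lat.qC (L : Lat) (x y : L.C) : ℂ := extC L.form x y

/-- The `ℂ`-linear extension of a homomorphism. -/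
noncomputable def mapC {L M : Lat} (f : L.Hom M) (x : L.C) : M.C := f.baseChange ℂ x

/-! ## Unimodular Hodge lattices -/

/-- A unimodular polarizable Hodge lattice: a unimodular lattice with a polarizable Hodge
structure of weight four (`H p` is the part of type `(p, 4 - p)`) for which the form is a
morphism of Hodge structures. -/
structure HLat extends Lat where
  H : ℤ → Submodule ℂ toLat.C
  internal : DirectSum.IsInternal H
  conj_mem : ∀ p x, x ∈ H p → toLat.conj x ∈ H (4 - p)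
  unimod : toLat.Unimod
  orth : ∀ p r x y, x ∈ H p → y ∈ H r → p + r ≠ 4 → toLat.qC x y = 0
  /-- there is a polarization, that is a form `Q` (not necessarily the form of the lattice)
  satisfying the Hodge–Riemann bilinear relations -/
  polarizable : ∃ Q : LinearMap.BilinForm ℤ V, (∀ x y, Q x y = Q y x) ∧
    (∀ p r x y, x ∈ H p → y ∈ H r → p + r ≠ 4 → extC Q x y = 0) ∧
    ∀ p x, x ∈ H p → x ≠ 0 →
      ∃ r : ℝ, 0 < r ∧ (-1 : ℂ) ^ p * extC Q x (toLat.conj x) = (r : ℂ)

/-- `x` is of type `(p, 4 - p)`. -/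
def HLat.Is (A : HLat) (p : ℤ) (x : A.C) : Prop := x ∈ A.H p

/-- Integral Hodge classes. -/
noncomputable def HLat.hdg (A : HLat) : Submodule ℤ A.V :=
  ((A.H 2).restrictScalars ℤ).comap (TensorProduct.mk ℤ ℂ A.V 1)

/-- `v` is an integral Hodge class. -/
def HLat.IsHdg (A : HLat) (v : A.V) : Prop := v ∈ A.hdg

/-- A morphism of Hodge structures. -/
def HLat.Mor (A B : HLat) (f : A.Hom B.toLat) : Prop :=
  ∀ p x, A.Is p x → B.Is p (mapC f x)

/-- A subgroup as a lattice. -/
noncomputable def Lat.sub (L : Lat) (N : Submodule ℤ L.V) : Lat where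
  V := N
  form := L.form.restrict N
  symm := fun x y => L.symm x y

/-- The transcendental lattice: the orthogonal complement of the integral Hodge classes. -/
noncomputable def HLat.T (A : HLat) : Lat := A.sub (A.form.orthogonal A.hdg)

/-- The inclusion of the transcendental lattice. -/
noncomputable def HLat.incl (A : HLat) : A.T.Hom A.toLat := (A.form.orthogonal A.hdg).subtype

/-- `x ∈ ℂ ⊗ T_A` is of type `(p, 4 - p)`. -/
def HLat.IsT (A : HLat) (p : ℤ) (x : A.T.C) : Prop := A.Is p (mapC A.incl x)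

/-- `f : T_A → T_B` is a morphism of Hodge structures. -/
def HLat.MorT (A B : HLat) (f : A.T.Hom B.T) : Prop :=
  ∀ p x, A.IsT p x → B.IsT p (mapC f x)

/-- `T_A` and `T_B` are Hodge isometric. -/
def HodgeIsometric (A B : HLat) : Prop :=
  ∃ f : A.T.Hom B.T, A.MorT B f ∧ Function.Bijective f ∧ ∀ s t, B.T.q (f s) (f t) = A.T.q s t

/-- `T_A ⊗ ℚ` and `T_B ⊗ ℚ` are Hodge isometric: there are a morphism of Hodge structures
`f : T_A → T_B` with finite cokernel and `n > 0` such that `f/n` is an isometry. -/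
def RatHodgeIsometric (A B : HLat) : Prop :=
  ∃ (f : A.T.Hom B.T) (n : ℤ), 0 < n ∧ A.MorT B f ∧ (∀ t, ∃ (m : ℤ) (s : A.T.V), m ≠ 0 ∧ f s = m • t) ∧
    ∀ s t, B.T.q (f s) (f t) = n ^ 2 * A.T.q s t

/-- `End_Hdg(T_A) = ℤ`. -/
def EndZ (A : HLat) : Prop := ∀ f : A.T.Hom A.T, A.MorT A f → ∃ n : ℤ, ∀ t, f t = n • t

/-- `e : T_A → T_A` lies in the ring `O_A` of Hodge endomorphisms that map the dual lattice
`T_A^*` to itself: if `t/k` is in the dual lattice, so is `e(t)/k`. -/
def HLat.InO (A : HLat) (e : A.T.Hom A.T) : Prop :=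
  A.MorT A e ∧ ∀ (k : ℤ) (t : A.T.V), (∀ t', k ∣ A.T.q t t') → ∀ t', k ∣ A.T.q (e t) t'

/-- The ring `O_A` is integrally closed: if `e` is a Hodge endomorphism of `T_A`, `n ≠ 0`, and
`e/n` is integral over `ℤ`, that is `n^d p(e/n) = 0` for a monic polynomial `p` of degree `d`
with integral coefficients, then `e/n ∈ O_A`. -/
def OIntClosed (A : HLat) : Prop :=
  ∀ (e : A.T.Hom A.T) (n : ℤ), A.MorT A e → n ≠ 0 →
    (∃ p : Polynomial ℤ, p.Monic ∧
      Polynomial.aeval (R := ℤ) (A := Module.End ℤ A.T.V) e (p.scaleRoots n) = 0) →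
    ∃ e' : A.T.Hom A.T, A.InO e' ∧ ∀ t, e t = n • e' t

/-! ## Projective bundles and blow-ups -/

/-- Homomorphisms `η₀, …, η_{m-1} : A → B` of Hodge structures with `q(η_k x, η_l y) = 0` for
`k + l < m - 1` and `q(η_k x, η_l y) = s q(x, y)` for `k + l = m - 1`. -/
structure Tower (s : ℤ) (A B : HLat) (m : ℕ) (η : Fin m → A.Hom B.toLat) : Prop where
  mor : ∀ k, A.Mor B (η k)
  low : ∀ k l : Fin m, (k : ℕ) + l + 1 < m → ∀ x y, B.q (η k x) (η l y) = 0
  mid : ∀ k l : Fin m, (k : ℕ) + l + 1 = m → ∀ x y, B.q (η k x) (η l y) = s * A.q x y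

/-- The cohomology `E` of a projective bundle of rank `m` (fibres `ℙ^{m-1}`) over a variety with
cohomology `Z`: `η_k(x) = h^k p^*(x)`. -/
def BundleFormula (Z E : HLat) (m : ℕ) : Prop :=
  ∃ η : Fin m → Z.Hom E.toLat, Tower 1 Z E m η ∧
    Function.Bijective fun x : Fin m → Z.V => ∑ k, η k (x k)

/-- The cohomology `B` of the blow-up of a variety with cohomology `W` in a smooth subvariety of
codimension `m + 1` with cohomology `Z`: `β` is the pull back, and `ε_k(x) = j_*(h^k p^*(x))`. -/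
def BlowUpFormula (W Z B : HLat) (m : ℕ) : Prop :=
  ∃ (β : W.Hom B.toLat) (ε : Fin m → Z.Hom B.toLat), W.Mor B β ∧ Tower (-1) Z B m ε ∧
    (∀ x y, B.q (β x) (β y) = W.q x y) ∧ (∀ x k y, B.q (β x) (ε k y) = 0) ∧
    Function.Bijective fun x : W.V × (Fin m → Z.V) => β x.1 + ∑ k, ε k (x.2 k)

/-! ## The middle cohomology of a Verra fourfold -/

/-- The middle cohomology `H⁴(X, ℤ)` of a Verra fourfold with its cup product and its Hodge
structure; `a₁ = h₁²`, `a₂ = h₁h₂`, `a₃ = h₂²`. -/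
structure Coh extends HLat where
  /-- `H^{p,4-p} = 0` unless `p = 1, 2, 3` -/
  level : ∀ p, p ≠ 1 → p ≠ 2 → p ≠ 3 → H p = ⊥
  /-- `h^{3,1} = 1` -/
  one_dim : Module.finrank ℂ (H 3) = 1
  /-- Hodge–Riemann relation on `H^{3,1}` -/
  neg : ∀ x, toHLat.Is 3 x → x ≠ 0 → ∃ r : ℝ, 0 < r ∧ toLat.qC x (toLat.conj x) = -(r : ℂ)
  a : Fin 3 → V
  a_hodge : ∀ i, toHLat.IsHdg (a i)
  /-- Hodge–Riemann relation for primitive classes of type `(2,2)` -/
  pos : ∀ x, toHLat.Is 2 x → (∀ i, toLat.qC (toLat.one (a i)) x = 0) → x ≠ 0 →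
    ∃ r : ℝ, 0 < r ∧ toLat.qC x (toLat.conj x) = (r : ℂ)

/-- `A = H⁴(X, ℤ)` inside the even cohomology `B` of `X`: the orthogonal complement of `A` in `B`
consists of Hodge classes. -/
def Middle (A B : HLat) : Prop :=
  ∃ i : A.Hom B.toLat, A.Mor B i ∧ (∀ x y, B.q (i x) (i y) = A.q x y) ∧
    ∀ v, (∀ x, B.q v (i x) = 0) → B.IsHdg v

/-! ## Twisted K3 surfaces -/

/-- The `ℝ`-bilinear extension of a form. -/
noncomputable def extR {V : Type} [AddCommGroup V] (Q : LinearMap.BilinForm ℤ V)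
    (x y : ℝ ⊗[ℤ] V) : ℝ :=
  Q.baseChange ℝ x y

/-- The Mukai lattice `H̃(S, α, ℤ)` of a complex projective twisted K3 surface `(S, α)`: even,
unimodular, of signature `(4, 20)`; `σ` spans `H̃^{2,0}`, and
`frame = (Re σ, Im σ, Re exp(B+iω), Im exp(B+iω))` is the natural orientation of the four
positive directions. -/
structure Mukai extends Lat where
  even : toLat.Even
  unimod : toLat.Unimod
  σ : toLat.C
  frame : Fin 4 → ℝ ⊗[ℤ] V
  frame_pos : ∀ c : Fin 4 → ℝ, c ≠ 0 →
    0 < extR form (∑ i, c i • frame i) (∑ i, c i • frame i)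
  frame_neg : ∀ x, (∀ i, extR form (frame i) x = 0) → x ≠ 0 → extR form x x < 0

/-- `n` lies in the algebraic part `N(S, α)`: it is orthogonal to `H̃^{2,0}`. -/
def Mukai.Alg (M : Mukai) (n : M.V) : Prop := M.qC (M.one n) M.σ = 0

/-- An isometry of lattices. -/
def IsIsometry (L M : Lat) (g : L.Hom M) : Prop :=
  Function.Bijective g ∧ ∀ x y, M.q (g x) (g y) = L.q x y

/-- A Hodge isometry of Mukai lattices that respects the natural orientations of the four
positive directions. -/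
def Mukai.HodgeIsom (M M' : Mukai) (g : M.Hom M'.toLat) : Prop :=
  IsIsometry M.toLat M'.toLat g ∧ (∃ c : ℂ, mapC g M.σ = c • M'.σ) ∧
    0 < Matrix.det (Matrix.of fun i j : Fin 4 =>
      extR M'.form (g.baseChange ℝ (M.frame i)) (M'.frame j))

/-- `T_X(-1) ≅ T(S, α)` as Hodge structures with forms. -/
def TrMukai (A : Coh) (M : Mukai) : Prop :=
  ∃ j : A.T.Hom M.toLat, (∀ s t, M.q (j s) (j t) = - A.T.q s t) ∧
    (∀ m, (∃ t, j t = m) ↔ ∀ n, M.Alg n → M.q n m = 0) ∧
    ∀ x, A.IsT 3 x → ∃ c : ℂ, mapC j x = c • M.σ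

/-- `N(S, α)` contains `U(2) ⊕ ⟨2⟩`. -/
def AlgMukai (M : Mukai) : Prop :=
  ∃ e f v, M.Alg e ∧ M.Alg f ∧ M.Alg v ∧ M.q e e = 0 ∧ M.q f f = 0 ∧ M.q e f = 2 ∧
    M.q v v = 2 ∧ M.q e v = 0 ∧ M.q f v = 0

/-! ## The published theorems -/

/-- Smooth projective varieties, Verra fourfolds, twisted K3 surfaces, their derived categories,
and the published theorems that are used. -/
structure VerraData where
  /-- isomorphism classes of smooth connected complex projective varieties -/
  Var : Type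
  /-- the Grothendieck ring `K₀(Var/ℂ)` -/
  K0 : Type
  [ring : CommRing K0]
  /-- the class of a variety in `K₀(Var/ℂ)` -/
  cls : Var → K0
  /-- the class of the affine line -/
  L : K0
  /-- `W ↦ ℙ¹ × W` -/
  P1 : Var → Var
  cls_P1 : ∀ W, cls (P1 W) = (1 + L) * cls W
  /-- `Blow W Z B E m`: `Z` is a closed subvariety of `W` of codimension `m + 1`, `B` is the
  blow-up of `W` in `Z` and `E` its exceptional divisor -/
  Blow : Var → Var → Var → Var → ℕ → Prop
  /-- Bittner 2004, Theorem 3.1 -/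
  bittner : ∀ (A : Type) [AddCommGroup A] (χ : Var → A),
    (∀ W Z B E m, Blow W Z B E m → χ B - χ E = χ W - χ Z) →
    ∃ F : K0 →+ A, ∀ W, F (cls W) = χ W
  /-- the even cohomology `⊕ᵢ H^{2i}(W, ℤ)/torsion` with the Poincaré pairing
  `H^{2i} × H^{2(n-i)} → ℤ`, `n = dim W`, and with its Hodge structures Tate twisted to weight
  four -/
  ev : Var → HLat
  ev_P1 : ∀ W, BundleFormula (ev W) (ev (P1 W)) 2
  ev_E : ∀ W Z B E m, Blow W Z B E m → BundleFormula (ev Z) (ev E) (m + 1)
  /-- Voisin, Hodge Theory and Complex Algebraic Geometry I, Theorem 7.31 -/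
  ev_B : ∀ W Z B E m, Blow W Z B E m → BlowUpFormula (ev W) (ev Z) (ev B) m
  /-- smooth double covers of `ℙ² × ℙ²` branched along a divisor of bidegree `(2,2)` -/
  Verra : Type
  /-- the isomorphism class of the variety underlying a Verra fourfold -/
  var : Verra → Var
  /-- isomorphism of Verra fourfolds -/
  Iso : Verra → Verra → Prop
  /-- the middle cohomology `H⁴(X, ℤ)` -/
  coh : Verra → Coh
  ev_coh : ∀ X, Middle (coh X).toHLat (ev (var X))
  /-- complex projective K3 surfaces with a Brauer class -/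
  K3 : Type
  /-- the Mukai lattice `H̃(S, α, ℤ)` -/
  mukai : K3 → Mukai
  /-- `ℂ`-linear triangulated categories -/
  Cat : Type
  /-- `ℂ`-linear exact equivalence -/
  Equiv : Cat → Cat → Prop
  equiv_symm : ∀ {A B}, Equiv A B → Equiv B A
  equiv_trans : ∀ {A B C}, Equiv A B → Equiv B C → Equiv A C
  /-- the K3 category of `X`: the orthogonal complement of the six line bundles
  `O(i,j)`, `0 ≤ i ≤ 2`, `0 ≤ j ≤ 1` -/
  Ku : Verra → Cat
  /-- the orthogonal complement of `O`, `O(1,0)`, `O(0,1)`, `O(1,1)` -/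
  Ku4 : Verra → Cat
  ku4_iso : ∀ X Y, Iso X Y → Equiv (Ku4 X) (Ku4 Y)
  /-- `D^b(S, α)` -/
  Db : K3 → Cat
  /-- the twisted K3 surface attached to the first projection: the minimal resolution of the
  double plane branched along the discriminant sextic of `X → ℙ²`, with its Brauer class -/
  assoc : Verra → K3
  /-- Kuznetsov 2008 (smooth sextic), Xie 2023 (nodal sextic): `Ku(X) ≅ D^b(S, α)` -/
  ku_db : ∀ X, Equiv (Ku X) (Db (assoc X))
  /-- van Geemen 2005, Perry 2022: `T_X(-1) ≅ T(S, α)` -/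
  tr_mukai : ∀ X, TrMukai (coh X) (mukai (assoc X))
  /-- the classes coming from `ℙ² × ℙ²`: for `α = exp(B)` they are spanned by `(0,h,0)`,
  `(0,0,1)`, `(2,2B,0)` -/
  alg_mukai : ∀ X, AlgMukai (mukai (assoc X))
  /-- all Mukai lattices are isometric (to `U⁴ ⊕ E₈(-1)²`) -/
  mukai_iso : ∀ s s', ∃ g, IsIsometry (mukai s).toLat (mukai s').toLat g
  /-- Huybrechts–Stellari 2006: an orientation preserving Hodge isometry of Mukai lattices
  comes from an equivalence -/
  huybrechts_stellari : ∀ s s' g, (mukai s).HodgeIsom (mukai s') g → Equiv (Db s) (Db s')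
  /-- Nikulin 1979 -/
  nikulin : Nikulin1144
  /-- Torelli theorem in rank 21. `T_X(-1)` has exactly two even overlattices of index two,
  `T(S₁)` and `T(S₂)` (Nikulin 1979), and `αᵢ` is the class with kernel `T_X`; the double planes
  `Sᵢ` of Picard rank one are determined by `T(Sᵢ)` (global Torelli theorem), `(Sᵢ, αᵢ)`
  determines the discriminant sextic with its 2-torsion point (van Geemen 2005, section 9), and
  this determines the divisor of bidegree `(2,2)` (Beauville, Dixon) -/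
  torelli : ∀ X Y, (coh X).T.rk = 21 → HodgeIsometric (coh X).toHLat (coh Y).toHLat → Iso X Y

attribute [instance] VerraData.ring

/-- L-equivalence: `([X] - [Y]) 𝕃^k = 0` in `K₀(Var/ℂ)` for some `k`. -/
def VerraData.LEq (D : VerraData) (X Y : D.Verra) : Prop :=
  ∃ k : ℕ, (D.cls (D.var X) - D.cls (D.var Y)) * D.L ^ k = 0

end H91.VG
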