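import Pool.Agent.H91.VG.AmbX

/-!
# From equal invariants to a Hodge isometry
-/

namespace H91.VG

open scoped TensorProduct

/-- The adjoint of a morphism is a morphism. -/
theorem HLat.Mor.adjoint {A B : HLat} {f : A.Hom B.toLat} (hf : A.Mor B f) :
    ∃ g : B.Hom A.toLat, B.Mor A g ∧ ∀ a b, A.q (g b) a = B.q b (f a) := by
  obtain ⟨g, hg⟩ := A.exists_adjoint f
  refine ⟨g, ?_, hg⟩
  intro p x hx
  apply A.is_of_orth
  intro r y hr hy
  have h1 := qC_ext (L := A.toLat) (M := B.toLat) g (LinearMap.id : A.Hom A.toLat)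
    (LinearMap.id : B.Hom B.toLat) f 1 (fun b a => by rw [one_mul]; exact hg a b) x y
  rw [mapC_id, mapC_id, Int.cast_one, one_mul] at h1
  rw [Lat.qC_symm, h1]
  exact B.qC_orth hx (hf r y hy) (by omega)

/-- The inclusion of `T_X` in `H⁴(X, ℤ)`. -/
theorem isM_incl (X : Coh) : IsM X X.toHLat X.incl where
  mor _ _ hx := hx
  dual v hv := ⟨X.mkT v hv, fun t => X.q_incl (X.mkT v hv) t⟩

/-- A morphism with values in Hodge classes is zero. -/
theorem IsM.eq_zero_of_hdg {X : Coh} {V : HLat} {f : X.T.Hom V.toLat} (hf : IsM X V f)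
    (h : ∀ t, f t ∈ V.hdg) : f = 0 := by
  apply X.hom_eq_zero_of_om
  have h2 : ∀ y : X.T.C, V.Is 2 (mapC f y) := by
    intro y
    induction y using Lat.C_induction with
    | h1 c t =>
      rw [mapC_smul, mapC_one]
      exact Submodule.smul_mem _ c (h t)
    | h2 a b ha hb =>
      rw [mapC_add]
      exact Submodule.add_mem _ ha hb
  have h3 := V.pr_of_mem (h2 X.om)
  rw [← h3]
  exact V.pr_of_ne (hf.mor 3 _ X.om_isT) (by norm_num)

/-- Morphisms to the even cohomology of a Verra fourfold come from morphisms to the middle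
cohomology. -/
theorem exists_lift {X Y : Coh} {V : HLat} (h : Middle Y.toHLat V) :
    ∃ i : Y.Hom V.toLat, Y.Mor V i ∧ (∀ x y, V.q (i x) (i y) = Y.q x y) ∧
      ∀ f : X.T.Hom V.toLat, IsM X V f → ∃ g : X.T.Hom Y.toLat, IsM X Y.toHLat g ∧
        f = i ∘ₗ g := by
  obtain ⟨i, hi, hiso, hcomp⟩ := h
  refine ⟨i, hi, hiso, ?_⟩
  intro f hf
  obtain ⟨π, hπ, hadj⟩ := hi.adjoint
  refine ⟨π ∘ₗ f, hf.comp hπ, ?_⟩
  have h1 : IsM X V (f + (-1 : ℤ) • (i ∘ₗ (π ∘ₗ f))) := hf.add (((hf.comp hπ).comp hi).smul (-1))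
  have h2 : f + (-1 : ℤ) • (i ∘ₗ (π ∘ₗ f)) = 0 := by
    apply h1.eq_zero_of_hdg
    intro t
    apply hcomp
    intro x
    have e1 : (f + (-1 : ℤ) • (i ∘ₗ (π ∘ₗ f))) t = f t + (-1 : ℤ) • i (π (f t)) := rfl
    rw [e1, Lat.q_add_left, Lat.q_smul_left, hiso, hadj]
    ring
  rw [neg_one_zsmul, ← sub_eq_add_neg, sub_eq_zero] at h2
  exact h2

/-- Morphisms to `H⁴(Y, ℤ)` have values in `T_Y`. -/
theorem exists_toT {X Y : Coh} {g : X.T.Hom Y.toLat} (hg : IsM X Y.toHLat g) :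
    ∃ φ : X.T.Hom Y.T, X.MorT Y.toHLat φ ∧ Y.incl ∘ₗ φ = g := by
  let φ : X.T.Hom Y.T := LinearMap.codRestrict (Y.form.orthogonal Y.hdg) g (fun t => hg.tr t)
  have h1 : Y.incl ∘ₗ φ = g := by
    ext t
    rfl
  refine ⟨φ, ?_, h1⟩
  intro p x hx
  show Y.Is p (mapC Y.incl (mapC φ x))
  rw [← mapC_comp, h1]
  exact hg.mor p x hx

/-- `O_X` acts by its eigenvalue. -/
theorem exists_scalar {X : Coh} {g : X.T.Hom X.toLat} (hg : IsM X X.toHLat g) :
    ∃ z ∈ X.R, mapC g X.om = z • mapC X.incl X.om := by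
  obtain ⟨φ, _, h1⟩ := exists_toT hg
  obtain ⟨e, he, hpair⟩ := hg.pairing (isM_incl X)
  have h2 : e = φ := by
    ext s
    have h3 : e s - φ s = 0 := by
      apply X.T_nondeg
      intro t
      rw [sub_eq_add_neg, Lat.q_add_left, ← neg_one_zsmul, Lat.q_smul_left, ← hpair, ← h1,
        LinearMap.comp_apply, X.q_incl]
      ring
    rwa [sub_eq_zero] at h3
  obtain ⟨z, hz⟩ := X.exists_eig he
  refine ⟨z, ⟨e, he, hz⟩, ?_⟩
  rw [← h1, mapC_comp, ← h2, hz, mapC_smul]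

/-- The lattice of the even cohomology of `X`. -/
theorem exists_gen {X : Coh} {V : HLat} (h : Middle X.toHLat V) (S : Submonoid ℤ)
    (hS : ∀ n ∈ S, n ≠ 0) :
    ∃ b : V.C, HV X V b b = 1 ∧ ∀ z, z ∈ LS X S V ↔ ∃ r ∈ X.RS S, z = r • b := by
  obtain ⟨i, hi, hiso, hl⟩ := exists_lift (X := X) h
  refine ⟨mapC i (mapC X.incl X.om), ?_, ?_⟩
  · rw [HV_map (n := 1) (fun a b => by rw [hiso, one_mul])]
    unfold HV
    rw [mapC_conj, X.qC_incl]
    have h1 : X.T.qC X.om (X.T.conj X.om) / X.c0 = 1 := div_self X.c0_ne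
    rw [h1]
    simp
  · intro z
    constructor
    · rintro ⟨n, hn, hz⟩
      obtain ⟨f, hf, hfz⟩ := mem_LV.mp hz
      obtain ⟨g, hg, rfl⟩ := hl f hf
      obtain ⟨a, ha, hga⟩ := exists_scalar hg
      have hn0 : (n : ℂ) ≠ 0 := by exact_mod_cast hS n hn
      refine ⟨(n : ℂ)⁻¹ * a, ⟨n, hn, ?_⟩, ?_⟩
      · rw [← mul_assoc, mul_inv_cancel₀ hn0, one_mul]
        exact ha
      · rw [mapC_comp, hga, mapC_smul] at hfz
        rw [mul_smul, hfz, smul_smul, inv_mul_cancel₀ hn0, one_smul]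
    · rintro ⟨r, hr, rfl⟩
      apply LS_smul _ hr
      apply LV_le_LS
      exact mem_LV.mpr ⟨i ∘ₗ X.incl, (isM_incl X).comp hi, mapC_comp _ _ _⟩

/-- **The end of the proof.** -/
theorem rat_isometry {X Y : Coh} {V : HLat} (h : Middle Y.toHLat V) {z : V.C} {n : ℤ}
    (hn : n ≠ 0) (hz : (n : ℂ) • z ∈ LV X V) (h1 : HV X V z z = 1) :
    ∃ φ : X.T.Hom Y.T, X.MorT Y.toHLat φ ∧
      (∀ s t, Y.T.q (φ s) (φ t) = n ^ 2 * X.T.q s t) ∧
      ∀ t, ∃ s, φ s = (n ^ 2) • t := by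
  obtain ⟨i, hi, hiso, hl⟩ := exists_lift (X := X) h
  obtain ⟨f, hf, hfz⟩ := mem_LV.mp hz
  obtain ⟨e, he, hpair⟩ := hf.pairing hf
  obtain ⟨a, ha⟩ := X.exists_eig he
  have h2 : a = (n : ℂ) ^ 2 := by
    rw [← HV_eig hpair ha, hfz, HV_smul_left, HV_smul_right, h1, map_intCast]
    ring
  have h3 : e = (n ^ 2 : ℤ) • (LinearMap.id : X.T.Hom X.T) := by
    apply X.hom_ext_of_om
    rw [ha, h2, mapC_map_smul, mapC_id, ← Int.cast_smul_eq_zsmul ℂ]
    push_cast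
    rfl
  have h4 : ∀ s t, V.q (f s) (f t) = n ^ 2 * X.T.q s t := by
    intro s t
    rw [hpair, h3]
    exact Lat.q_smul_left X.T (n ^ 2) s t
  obtain ⟨g, hg, rfl⟩ := hl f hf
  obtain ⟨φ, hφ, hφg⟩ := exists_toT hg
  have h5 : ∀ s t, Y.T.q (φ s) (φ t) = n ^ 2 * X.T.q s t := by
    intro s t
    rw [← h4, ← Y.q_incl, LinearMap.comp_apply, LinearMap.comp_apply, hiso]
    rw [← hφg]
    rfl
  refine ⟨φ, hφ, h5, ?_⟩
  intro t
  obtain ⟨s, hs⟩ := hg.dual (Y.incl t) (Y.tr_incl t)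
  refine ⟨s, ?_⟩
  have hs' : ∀ t', Y.T.q t (φ t') = X.T.q s t' := by
    intro t'
    rw [← hs, ← hφg, ← Y.q_incl]
    rfl
  -- `u = n² t - φ s` is orthogonal to `φ(T_X)`
  have h6 : ∀ t', Y.T.q ((n ^ 2) • t - φ s) (φ t') = 0 := by
    intro t'
    rw [sub_eq_add_neg, Lat.q_add_left, Lat.q_smul_left, ← neg_one_zsmul, Lat.q_smul_left,
      hs', h5]
    ring
  -- hence to `H^{3,1}(Y)`
  have hn2 : (n ^ 2 : ℤ) ≠ 0 := pow_ne_zero 2 hn
  have hφom : mapC φ X.om ≠ 0 := by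
    intro h0
    have h7 : φ = 0 := X.hom_eq_zero_of_om h0
    have h8 : ∀ s t, n ^ 2 * X.T.q s t = 0 := by
      intro s t
      rw [← h5, h7, LinearMap.zero_apply, Lat.q_zero_left]
    have h9 : ∀ s : X.T.V, s = 0 := by
      intro s
      apply X.T_nondeg
      intro t
      exact (mul_eq_zero.mp (h8 s t)).resolve_left hn2
    have h10 : (LinearMap.id : X.T.Hom X.T) = 0 := by
      ext s
      exact congrArg _ (h9 s)
    apply X.om_ne
    have h11 := mapC_id X.om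
    rw [h10, mapC_map_zero] at h11
    exact h11.symm
  have hφ3 : Y.IsT 3 (mapC φ X.om) := hφ 3 _ X.om_isT
  obtain ⟨c, hc⟩ := Y.om_span hφ3
  have hc0 : c ≠ 0 := by
    intro h0
    rw [h0, zero_smul] at hc
    exact hφom hc
  set u : Y.T.V := (n ^ 2) • t - φ s with hu
  have h12 : Y.T.qC (Y.T.one u) (mapC φ X.om) = 0 := by
    have h13 : ∀ y : X.T.C, Y.T.qC (Y.T.one u) (mapC φ y) = 0 := by
      intro y
      induction y using Lat.C_induction with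
      | h1 c t' =>
        rw [mapC_smul, mapC_one, Lat.qC_smul_right, Lat.qC_one_one, h6]
        simp
      | h2 a b ha hb => rw [mapC_add, Lat.qC_add_right, ha, hb, add_zero]
    exact h13 _
  rw [hc, Lat.qC_smul_right] at h12
  have h14 : Y.T.qC (Y.T.one u) Y.om = 0 := (mul_eq_zero.mp h12).resolve_left hc0
  have h15 : Y.incl u ∈ Y.hdg := by
    apply Y.old.hodge_of_orth
    intro x hx
    obtain ⟨y, hy⟩ := Y.exists_incl hx
    have hy3 : Y.IsT 3 y := by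
      show Y.Is 3 (mapC Y.incl y)
      rw [hy]
      exact hx
    obtain ⟨d, rfl⟩ := Y.om_span hy3
    rw [← hy]
    have h16 : Y.qC (Y.one (Y.incl u)) (mapC Y.incl (d • Y.om)) = 0 := by
      rw [← mapC_one, Y.qC_incl, Lat.qC_smul_right, h14, mul_zero]
    exact h16
  have h17 : Y.incl u = 0 := Y.old.eq_zero_of_mem h15 u.2
  have h18 : u = 0 := by
    apply Y.incl_injective
    rw [h17, map_zero]
  rw [hu, sub_eq_zero] at h18
  exact h18.symm

theorem ratHodgeIsometric {X Y : Coh} {V : HLat} (h : Middle Y.toHLat V) {S : Submonoid ℤ}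
    (hS : ∀ n ∈ S, n ≠ 0) {z : V.C} (hz : z ∈ LS X S V) (h1 : HV X V z z = 1) :
    RatHodgeIsometric X.toHLat Y.toHLat := by
  obtain ⟨n, hn, hz⟩ := hz
  have hn0 := hS n hn
  obtain ⟨φ, hφ, hq, hs⟩ := rat_isometry h hn0 hz h1
  refine ⟨φ, |n|, abs_pos.mpr hn0, hφ, ?_, ?_⟩
  · intro t
    obtain ⟨s, hs⟩ := hs t
    exact ⟨n ^ 2, s, pow_ne_zero 2 hn0, hs⟩
  · intro s t
    rw [hq, sq_abs]

theorem hodgeIsometric {X Y : Coh} {V : HLat} (h : Middle Y.toHLat V) {z : V.C}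
    (hz : z ∈ LS X ⊥ V) (h1 : HV X V z z = 1) :
    HodgeIsometric X.toHLat Y.toHLat := by
  obtain ⟨n, hn, hz⟩ := hz
  rw [Submonoid.mem_bot] at hn
  subst hn
  obtain ⟨φ, hφ, hq, hs⟩ := rat_isometry h one_ne_zero hz h1
  have hq' : ∀ s t, Y.T.q (φ s) (φ t) = X.T.q s t := by
    intro s t
    rw [hq]
    ring
  refine ⟨φ, hφ, ⟨?_, ?_⟩, hq'⟩
  · rw [← LinearMap.ker_eq_bot, LinearMap.ker_eq_bot']
    intro s hs0
    apply X.T_nondeg
    intro t
    rw [← hq', hs0, Lat.q_zero_left]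
  · intro t
    obtain ⟨s, hs⟩ := hs t
    refine ⟨s, ?_⟩
    rw [hs]
    simp

end H91.VG
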