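import Pool.Agent.H91.VG.LS

/-!
# Projective bundles and blow-ups
-/

namespace H91.VG

open scoped TensorProduct

theorem mapC_sum {ι : Type} {A B : Lat} (s : Finset ι) (f : ι → A.Hom B) (x : A.C) :
    mapC (∑ i ∈ s, f i : A.Hom B) x = ∑ i ∈ s, mapC (f i) x := by
  classical
  induction s using Finset.induction_on with
  | empty => rw [Finset.sum_empty, Finset.sum_empty, mapC_map_zero]
  | insert a s ha ih => rw [Finset.sum_insert ha, Finset.sum_insert ha, mapC_map_add, ih]

/-- `mapC` as a linear map. -/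
noncomputable def mapL {A B : Lat} (f : A.Hom B) : A.C →ₗ[ℂ] B.C := f.baseChange ℂ

theorem mapL_apply {A B : Lat} (f : A.Hom B) (x : A.C) : mapL f x = mapC f x := rfl

/-- Projective bundles. -/
theorem exists_bundle {Z E : HLat} {m : ℕ} (h : BundleFormula Z E m) :
    ∃ f : E.C ≃ₗ[ℂ] (Fin m → Z.C),
      (∀ (X : Coh) (S : Submonoid ℤ) (x : E.C), x ∈ LS X S E ↔ ∀ i, f x i ∈ LS X S Z) ∧
      (∀ (X : Coh) (i k : Fin m) (x y : Z.C), (i : ℕ) + k + 1 < m →
        HV X E (f.symm (Pi.single i x)) (f.symm (Pi.single k y)) = 0) ∧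
      (∀ (X : Coh) (i k : Fin m) (x y : Z.C), (i : ℕ) + k + 1 = m →
        HV X E (f.symm (Pi.single i x)) (f.symm (Pi.single k y)) = HV X Z x y) := by
  classical
  obtain ⟨η, hη, hbij⟩ := h
  -- the integral isomorphism
  let F : (Fin m → Z.V) →ₗ[ℤ] E.V := ∑ k, (η k) ∘ₗ (LinearMap.proj k)
  have hF : ∀ x, F x = ∑ k, η k (x k) := by
    intro x
    simp [F]
  have hFbij : Function.Bijective F := by
    have : (F : (Fin m → Z.V) → E.V) = fun x => ∑ k, η k (x k) := funext hF
    rw [this]
    exact hbij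
  let e : (Fin m → Z.V) ≃ₗ[ℤ] E.V := LinearEquiv.ofBijective F hFbij
  let π : Fin m → E.Hom Z.toLat := fun k => (LinearMap.proj k) ∘ₗ e.symm.toLinearMap
  have h1 : ∀ k l x, π l (η k x) = if k = l then x else 0 := by
    intro k l x
    have h2 : e (Pi.single k x) = η k x := by
      show F (Pi.single k x) = η k x
      rw [hF, Finset.sum_eq_single k]
      · rw [Pi.single_eq_same]
      · intro j _ hj
        rw [Pi.single_eq_of_ne hj, map_zero]
      · intro h
        exact absurd (Finset.mem_univ k) h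
    show e.symm (η k x) l = _
    rw [← h2, LinearEquiv.symm_apply_apply]
    by_cases hkl : k = l
    · subst hkl
      simp
    · rw [if_neg hkl, Pi.single_eq_of_ne (fun h => hkl h.symm)]
  have h2 : (∑ k, (η k) ∘ₗ (π k) : E.Hom E.toLat) = LinearMap.id := by
    ext y
    rw [LinearMap.sum_apply, LinearMap.id_apply]
    have : F (e.symm y) = y := e.apply_symm_apply y
    rw [hF] at this
    exact this
  have c1 : ∀ k l (x : Z.C), mapC (π l) (mapC (η k) x) = if k = l then x else 0 := by
    intro k l x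
    rw [← mapC_comp]
    by_cases hkl : k = l
    · subst hkl
      have h3 : (π k) ∘ₗ (η k) = (LinearMap.id : Z.Hom Z.toLat) := by
        ext x
        rw [LinearMap.comp_apply, h1, if_pos rfl, LinearMap.id_apply]
      rw [h3, mapC_id, if_pos rfl]
    · have h3 : (π l) ∘ₗ (η k) = (0 : Z.Hom Z.toLat) := by
        ext x
        rw [LinearMap.comp_apply, h1, if_neg hkl, LinearMap.zero_apply]
      rw [h3, mapC_map_zero, if_neg hkl]
  have c2 : ∀ y : E.C, ∑ k, mapC (η k) (mapC (π k) y) = y := by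
    intro y
    have h3 := congrArg (fun g : E.Hom E.toLat => mapC g y) h2
    simp only [mapC_id] at h3
    rw [mapC_sum] at h3
    rw [← h3]
    refine Finset.sum_congr rfl fun k _ => ?_
    rw [mapC_comp]
    rw [h3]
  let f : E.C ≃ₗ[ℂ] (Fin m → Z.C) :=
    { toFun := fun y k => mapC (π k) y
      map_add' := fun x y => funext fun k => mapC_add _ x y
      map_smul' := fun a x => funext fun k => mapC_smul _ a x
      invFun := fun x => ∑ k, mapC (η k) (x k)
      left_inv := c2
      right_inv := by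
        intro x
        funext l
        have h3 : mapC (π l) (∑ k, mapC (η k) (x k)) = ∑ k, mapC (π l) (mapC (η k) (x k)) :=
          map_sum (mapL (π l)) _ _
        refine h3.trans ?_
        rw [Finset.sum_eq_single l]
        · rw [c1, if_pos rfl]
        · intro k _ hk
          rw [c1, if_neg hk]
        · intro h
          exact absurd (Finset.mem_univ l) h }
  have hf : ∀ y k, f y k = mapC (π k) y := fun _ _ => rfl
  have hfs : ∀ i (x : Z.C), f.symm (Pi.single i x) = mapC (η i) x := by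
    intro i x
    show ∑ k, mapC (η k) ((Pi.single i x : Fin m → Z.C) k) = _
    rw [Finset.sum_eq_single i]
    · rw [Pi.single_eq_same]
    · intro k _ hk
      rw [Pi.single_eq_of_ne hk, mapC_zero]
    · intro h
      exact absurd (Finset.mem_univ i) h
  have hπ : ∀ k, E.Mor Z (π k) := by
    intro l p y hy
    have h3 : ∑ k, mapC (η k) (Z.pr p (mapC (π k) y)) = y := by
      have h4 : ∀ k, mapC (η k) (Z.pr p (mapC (π k) y)) = E.pr p (mapC (η k) (mapC (π k) y)) :=
        fun k => (hη.mor k).pr p _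
      rw [Finset.sum_congr rfl fun k _ => h4 k, ← map_sum, c2, E.pr_of_mem hy]
    have h5 : mapC (π l) y = Z.pr p (mapC (π l) y) := by
      have h6 := congrArg (mapL (π l)) h3
      rw [map_sum] at h6
      simp only [mapL_apply, c1] at h6
      rw [Finset.sum_eq_single l] at h6
      · rw [if_pos rfl] at h6
        exact h6.symm
      · intro k _ hk
        rw [if_neg hk]
      · intro h
        exact absurd (Finset.mem_univ l) h
    rw [h5]
    exact Z.pr_mem p _
  refine ⟨f, ?_, ?_, ?_⟩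
  · intro X S x
    constructor
    · intro hx i
      rw [hf]
      exact LS_map (hπ i) hx
    · intro hx
      rw [← c2 x]
      refine AddSubgroup.sum_mem _ fun k _ => ?_
      exact LS_map (hη.mor k) (hx k)
  · intro X i k x y hik
    rw [hfs, hfs]
    exact HV_map_zero (hη.low i k hik) x y
  · intro X i k x y hik
    rw [hfs, hfs, HV_map (hη.mid i k hik) x y]
    simp

/-- Blow-ups. -/
theorem exists_blowUp {W Z B : HLat} {m : ℕ} (h : BlowUpFormula W Z B m) :
    ∃ f : B.C ≃ₗ[ℂ] (W.C × (Fin m → Z.C)),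
      (∀ (X : Coh) (S : Submonoid ℤ) (x : B.C), x ∈ LS X S B ↔
        (f x).1 ∈ LS X S W ∧ ∀ i, (f x).2 i ∈ LS X S Z) ∧
      (∀ (X : Coh) (x y : W.C), HV X B (f.symm (x, 0)) (f.symm (y, 0)) = HV X W x y) ∧
      (∀ (X : Coh) (x : W.C) (y : Fin m → Z.C), HV X B (f.symm (x, 0)) (f.symm (0, y)) = 0) ∧
      (∀ (X : Coh) (x : W.C) (y : Fin m → Z.C), HV X B (f.symm (0, y)) (f.symm (x, 0)) = 0) ∧
      (∀ (X : Coh) (i k : Fin m) (x y : Z.C), (i : ℕ) + k + 1 < m →
        HV X B (f.symm (0, Pi.single i x)) (f.symm (0, Pi.single k y)) = 0) ∧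
      (∀ (X : Coh) (i k : Fin m) (x y : Z.C), (i : ℕ) + k + 1 = m →
        HV X B (f.symm (0, Pi.single i x)) (f.symm (0, Pi.single k y)) = - HV X Z x y) := by
  classical
  obtain ⟨β, ε, hβ, hε, hββ, hβε, hbij⟩ := h
  let F : (W.V × (Fin m → Z.V)) →ₗ[ℤ] B.V :=
    β ∘ₗ (LinearMap.fst ℤ _ _) + ∑ k, (ε k) ∘ₗ (LinearMap.proj k) ∘ₗ (LinearMap.snd ℤ _ _)
  have hF : ∀ x, F x = β x.1 + ∑ k, ε k (x.2 k) := by
    intro x
    simp [F]
  have hFbij : Function.Bijective F := by
    have : (F : (W.V × (Fin m → Z.V)) → B.V) = fun x => β x.1 + ∑ k, ε k (x.2 k) := funext hF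
    rw [this]
    exact hbij
  let e : (W.V × (Fin m → Z.V)) ≃ₗ[ℤ] B.V := LinearEquiv.ofBijective F hFbij
  let π₀ : B.Hom W.toLat := (LinearMap.fst ℤ _ _) ∘ₗ e.symm.toLinearMap
  let π : Fin m → B.Hom Z.toLat :=
    fun k => (LinearMap.proj k) ∘ₗ (LinearMap.snd ℤ _ _) ∘ₗ e.symm.toLinearMap
  have hsing : ∀ k x, e (0, Pi.single k x) = ε k x := by
    intro k x
    show F (0, Pi.single k x) = ε k x
    rw [hF, map_zero, zero_add]
    show ∑ j, ε j ((Pi.single k x : Fin m → Z.V) j) = ε k x
    rw [Finset.sum_eq_single k]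
    · rw [Pi.single_eq_same]
    · intro j _ hj
      rw [Pi.single_eq_of_ne hj, map_zero]
    · intro h
      exact absurd (Finset.mem_univ k) h
  have hbeta : ∀ x, e (x, 0) = β x := by
    intro x
    show F (x, 0) = β x
    rw [hF]
    simp
  have i1 : π₀ ∘ₗ β = (LinearMap.id : W.Hom W.toLat) := by
    ext x
    show (e.symm (β x)).1 = x
    rw [← hbeta, LinearEquiv.symm_apply_apply]
  have i2 : ∀ k, π₀ ∘ₗ (ε k) = (0 : Z.Hom W.toLat) := by
    intro k
    ext x
    show (e.symm (ε k x)).1 = 0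
    rw [← hsing, LinearEquiv.symm_apply_apply]
  have i3 : ∀ l, (π l) ∘ₗ β = (0 : W.Hom Z.toLat) := by
    intro l
    ext x
    show (e.symm (β x)).2 l = 0
    rw [← hbeta, LinearEquiv.symm_apply_apply]
    rfl
  have i4 : ∀ k, (π k) ∘ₗ (ε k) = (LinearMap.id : Z.Hom Z.toLat) := by
    intro k
    ext x
    show (e.symm (ε k x)).2 k = x
    rw [← hsing, LinearEquiv.symm_apply_apply]
    simp
  have i5 : ∀ k l, k ≠ l → (π l) ∘ₗ (ε k) = (0 : Z.Hom Z.toLat) := by
    intro k l hkl
    ext x
    show (e.symm (ε k x)).2 l = 0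
    rw [← hsing, LinearEquiv.symm_apply_apply]
    exact Pi.single_eq_of_ne (fun h => hkl h.symm) _
  have c1 : ∀ x : W.C, mapC π₀ (mapC β x) = x := by
    intro x
    rw [← mapC_comp, i1, mapC_id]
  have c2 : ∀ k (x : Z.C), mapC π₀ (mapC (ε k) x) = 0 := by
    intro k x
    rw [← mapC_comp, i2, mapC_map_zero]
  have c3 : ∀ l (x : W.C), mapC (π l) (mapC β x) = 0 := by
    intro l x
    rw [← mapC_comp, i3, mapC_map_zero]
  have c4 : ∀ k l (x : Z.C), mapC (π l) (mapC (ε k) x) = if k = l then x else 0 := by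
    intro k l x
    rw [← mapC_comp]
    by_cases hkl : k = l
    · subst hkl
      rw [i4, mapC_id, if_pos rfl]
    · rw [i5 k l hkl, mapC_map_zero, if_neg hkl]
  have h2 : (β ∘ₗ π₀ + ∑ k, (ε k) ∘ₗ (π k) : B.Hom B.toLat) = LinearMap.id := by
    ext y
    rw [LinearMap.add_apply, LinearMap.sum_apply, LinearMap.id_apply]
    have : F (e.symm y) = y := e.apply_symm_apply y
    rw [hF] at this
    exact this
  have c5 : ∀ y : B.C, mapC β (mapC π₀ y) + ∑ k, mapC (ε k) (mapC (π k) y) = y := by
    intro y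
    have h3 := congrArg (fun g : B.Hom B.toLat => mapC g y) h2
    simp only [mapC_id] at h3
    rw [mapC_map_add, mapC_sum, mapC_comp] at h3
    rw [← h3]
    congr 1
    · rw [h3]
    · refine Finset.sum_congr rfl fun k _ => ?_
      rw [mapC_comp, h3]
  have s0 : ∀ x : Fin m → Z.C, mapC π₀ (∑ k, mapC (ε k) (x k)) = 0 := by
    intro x
    have h3 : mapC π₀ (∑ k, mapC (ε k) (x k)) = ∑ k, mapC π₀ (mapC (ε k) (x k)) :=
      map_sum (mapL π₀) _ _
    rw [h3]
    exact Finset.sum_eq_zero fun k _ => c2 k _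
  have s1 : ∀ (x : Fin m → Z.C) l, mapC (π l) (∑ k, mapC (ε k) (x k)) = x l := by
    intro x l
    have h3 : mapC (π l) (∑ k, mapC (ε k) (x k)) = ∑ k, mapC (π l) (mapC (ε k) (x k)) :=
      map_sum (mapL (π l)) _ _
    rw [h3, Finset.sum_eq_single l]
    · rw [c4, if_pos rfl]
    · intro k _ hk
      rw [c4, if_neg hk]
    · intro h
      exact absurd (Finset.mem_univ l) h
  let f : B.C ≃ₗ[ℂ] (W.C × (Fin m → Z.C)) :=
    { toFun := fun y => (mapC π₀ y, fun k => mapC (π k) y)
      map_add' := fun x y => Prod.ext (mapC_add _ x y) (funext fun k => mapC_add _ x y)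
      map_smul' := fun a x => Prod.ext (mapC_smul _ a x) (funext fun k => mapC_smul _ a x)
      invFun := fun x => mapC β x.1 + ∑ k, mapC (ε k) (x.2 k)
      left_inv := c5
      right_inv := by
        intro x
        apply Prod.ext
        · show mapC π₀ (mapC β x.1 + ∑ k, mapC (ε k) (x.2 k)) = x.1
          rw [mapC_add, c1, s0, add_zero]
        · funext l
          show mapC (π l) (mapC β x.1 + ∑ k, mapC (ε k) (x.2 k)) = x.2 l
          rw [mapC_add, c3, s1, zero_add] }
  have hf0 : ∀ y, (f y).1 = mapC π₀ y := fun _ => rfl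
  have hf1 : ∀ y k, (f y).2 k = mapC (π k) y := fun _ _ => rfl
  have hfs0 : ∀ x : W.C, f.symm (x, 0) = mapC β x := by
    intro x
    show mapC β x + ∑ k, mapC (ε k) ((0 : Fin m → Z.C) k) = _
    rw [Finset.sum_eq_zero fun k _ => by rw [Pi.zero_apply, mapC_zero], add_zero]
  have hfs1 : ∀ x : Fin m → Z.C, f.symm (0, x) = ∑ k, mapC (ε k) (x k) := by
    intro x
    show mapC β 0 + ∑ k, mapC (ε k) (x k) = _
    rw [mapC_zero, zero_add]
  have hfs : ∀ i (x : Z.C), f.symm (0, Pi.single i x) = mapC (ε i) x := by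
    intro i x
    rw [hfs1, Finset.sum_eq_single i]
    · rw [Pi.single_eq_same]
    · intro k _ hk
      rw [Pi.single_eq_of_ne hk, mapC_zero]
    · intro h
      exact absurd (Finset.mem_univ i) h
  have hpr : ∀ p y, B.Is p y →
      mapC β (W.pr p (mapC π₀ y)) + ∑ k, mapC (ε k) (Z.pr p (mapC (π k) y)) = y := by
    intro p y hy
    have h4 : ∀ k, mapC (ε k) (Z.pr p (mapC (π k) y)) = B.pr p (mapC (ε k) (mapC (π k) y)) :=
      fun k => (hε.mor k).pr p _
    rw [Finset.sum_congr rfl fun k _ => h4 k, hβ.pr p, ← map_sum, ← map_add, c5,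
      B.pr_of_mem hy]
  have hπ₀ : B.Mor W π₀ := by
    intro p y hy
    have h5 : mapC π₀ y = W.pr p (mapC π₀ y) := by
      have h6 := congrArg (fun z => mapC π₀ z) (hpr p y hy)
      simp only [mapC_add, c1, s0, add_zero] at h6
      exact h6.symm
    rw [h5]
    exact W.pr_mem p _
  have hπ : ∀ k, B.Mor Z (π k) := by
    intro l p y hy
    have h5 : mapC (π l) y = Z.pr p (mapC (π l) y) := by
      have h6 := congrArg (fun z => mapC (π l) z) (hpr p y hy)
      simp only [mapC_add, c3, s1, zero_add] at h6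
      exact h6.symm
    rw [h5]
    exact Z.pr_mem p _
  have o1 : ∀ (X : Coh) (x : W.C) (y : Fin m → Z.C),
      HV X B (f.symm (x, 0)) (f.symm (0, y)) = 0 := by
    intro X x y
    rw [hfs0, hfs1]
    have h7 : ∀ s : Finset (Fin m), HV X B (mapC β x) (∑ k ∈ s, mapC (ε k) (y k)) = 0 := by
      intro s
      induction s using Finset.induction_on with
      | empty =>
        rw [Finset.sum_empty]
        have := HV_smul_right (X := X) (V := B) 0 (mapC β x) 0
        rwa [zero_smul, map_zero, zero_mul] at this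
      | insert a s ha ih =>
        rw [Finset.sum_insert ha, HV_add_right, ih, add_zero]
        exact HV_map_zero (fun u v => hβε u a v) x (y a)
    exact h7 _
  have o2 : ∀ (X : Coh) (x : W.C) (y : Fin m → Z.C),
      HV X B (f.symm (0, y)) (f.symm (x, 0)) = 0 := by
    intro X x y
    rw [hfs0, hfs1]
    have h7 : ∀ s : Finset (Fin m), HV X B (∑ k ∈ s, mapC (ε k) (y k)) (mapC β x) = 0 := by
      intro s
      induction s using Finset.induction_on with
      | empty =>
        rw [Finset.sum_empty]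
        have := HV_smul_left (X := X) (V := B) 0 0 (mapC β x)
        rwa [zero_smul, zero_mul] at this
      | insert a s ha ih =>
        rw [Finset.sum_insert ha, HV_add_left, ih, add_zero]
        exact HV_map_zero (fun u v => by rw [Lat.q_symm]; exact hβε v a u) (y a) x
    exact h7 _
  refine ⟨f, ?_, ?_, o1, o2, ?_, ?_⟩
  · intro X S x
    constructor
    · intro hx
      exact ⟨LS_map hπ₀ hx, fun i => LS_map (hπ i) hx⟩
    · rintro ⟨hx0, hx1⟩
      rw [← c5 x]
      refine AddSubgroup.add_mem _ (LS_map hβ hx0) ?_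
      refine AddSubgroup.sum_mem _ fun k _ => ?_
      exact LS_map (hε.mor k) (hx1 k)
  · intro X x y
    rw [hfs0, hfs0, HV_map (n := 1) (fun a b => by rw [hββ, one_mul]) x y]
    simp
  · intro X i k x y hik
    rw [hfs, hfs]
    exact HV_map_zero (hε.low i k hik) x y
  · intro X i k x y hik
    rw [hfs, hfs, HV_map (hε.mid i k hik) x y]
    simp

end H91.VG
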