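import Pool.Agent.H91.VG.Ded

/-!
# The lattices `{f(ω)}` and their hermitian form
-/

namespace H91.VG

open scoped TensorProduct

/-- `f ↦ f(ω)` as a linear map. -/
noncomputable def evalOm (X : Coh) (V : HLat) : (X.T.V →ₗ[ℤ] V.V) →ₗ[ℤ] V.C where
  toFun f := mapC (L := X.T) (M := V.toLat) f X.om
  map_add' f g := mapC_map_add (L := X.T) (M := V.toLat) f g X.om
  map_smul' n f := mapC_map_smul (L := X.T) (M := V.toLat) n f X.om

/-- The homomorphisms with `IsM`, as a subgroup. -/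
def MS (X : Coh) (V : HLat) : Submodule ℤ (X.T.V →ₗ[ℤ] V.V) where
  carrier := {f | IsM X V f}
  add_mem' h h' := h.add h'
  zero_mem' := IsM.zero
  smul_mem' n _ h := h.smul n

/-- The lattice `{f(ω)}`. -/
noncomputable def LV (X : Coh) (V : HLat) : AddSubgroup V.C :=
  ((MS X V).map (evalOm X V)).toAddSubgroup

theorem mem_LV {X : Coh} {V : HLat} {z : V.C} :
    z ∈ LV X V ↔ ∃ f, IsM X V f ∧ mapC f X.om = z := Iff.rfl

theorem LV_fg (X : Coh) (V : HLat) : ((MS X V).map (evalOm X V)).FG :=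
  (IsNoetherian.noetherian (MS X V)).map _

/-- The elements `z` with `n z ∈ LV` for some `n ∈ S`. -/
noncomputable def LS (X : Coh) (S : Submonoid ℤ) (V : HLat) : AddSubgroup V.C where
  carrier := {z | ∃ n ∈ S, (n : ℂ) • z ∈ LV X V}
  add_mem' := by
    rintro a b ⟨n, hn, ha⟩ ⟨m, hm, hb⟩
    refine ⟨n * m, S.mul_mem hn hm, ?_⟩
    have h1 : ((n * m : ℤ) : ℂ) • (a + b) = m • ((n : ℂ) • a) + n • ((m : ℂ) • b) := by
      rw [← Int.cast_smul_eq_zsmul ℂ m, ← Int.cast_smul_eq_zsmul ℂ n, smul_smul, smul_smul,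
        smul_add]
      push_cast
      rw [mul_comm (m : ℂ) n]
    rw [h1]
    exact (LV X V).add_mem ((LV X V).zsmul_mem ha m) ((LV X V).zsmul_mem hb n)
  zero_mem' := ⟨1, S.one_mem, by rw [smul_zero]; exact (LV X V).zero_mem⟩
  neg_mem' := by
    rintro a ⟨n, hn, ha⟩
    refine ⟨n, hn, ?_⟩
    rw [smul_neg]
    exact (LV X V).neg_mem ha

theorem mem_LS {X : Coh} {S : Submonoid ℤ} {V : HLat} {z : V.C} :
    z ∈ LS X S V ↔ ∃ n ∈ S, (n : ℂ) • z ∈ LV X V := Iff.rfl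

theorem LV_le_LS {X : Coh} {S : Submonoid ℤ} {V : HLat} {z : V.C} (h : z ∈ LV X V) :
    z ∈ LS X S V := ⟨1, S.one_mem, by simpa using h⟩

theorem LV_smul {X : Coh} {V : HLat} {z : V.C} (hz : z ∈ LV X V) {a : ℂ} (ha : a ∈ X.R) :
    a • z ∈ LV X V := by
  obtain ⟨f, hf, rfl⟩ := mem_LV.mp hz
  obtain ⟨e, he, hea⟩ := ha
  refine mem_LV.mpr ⟨f ∘ₗ e, hf.comp_O he, ?_⟩
  rw [mapC_comp, hea, mapC_smul]

theorem LS_smul {X : Coh} {S : Submonoid ℤ} {V : HLat} {z : V.C} (hz : z ∈ LS X S V) {a : ℂ}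
    (ha : a ∈ X.RS S) : a • z ∈ LS X S V := by
  obtain ⟨n, hn, hz⟩ := hz
  obtain ⟨m, hm, ha⟩ := ha
  refine ⟨m * n, S.mul_mem hm hn, ?_⟩
  have h1 : ((m * n : ℤ) : ℂ) • (a • z) = ((m : ℂ) * a) • ((n : ℂ) • z) := by
    rw [smul_smul, smul_smul]
    push_cast
    congr 1
    ring
  rw [h1]
  exact LV_smul hz ha

/-- Finite generation over `RS`. -/
theorem LS_fg (X : Coh) (S : Submonoid ℤ) (hS : ∀ n ∈ S, n ≠ 0) (V : HLat) :
    ∃ G : Finset V.C, (∀ s ∈ G, s ∈ LS X S V) ∧ ∀ x ∈ LS X S V,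
      x ∈ AddSubgroup.closure {y | ∃ r ∈ X.RS S, ∃ s ∈ G, y = r • s} := by
  obtain ⟨G, hG⟩ := LV_fg X V
  have hGL : ∀ s ∈ G, s ∈ LV X V := by
    intro s hs
    have : s ∈ (MS X V).map (evalOm X V) := by
      rw [← hG]
      exact Submodule.subset_span hs
    exact this
  refine ⟨G, fun s hs => LV_le_LS (hGL s hs), ?_⟩
  rintro x ⟨n, hn, hx⟩
  have hn0 : (n : ℂ) ≠ 0 := by exact_mod_cast hS n hn
  have hx' : (n : ℂ) • x ∈ Submodule.span ℤ (G : Set V.C) := by
    rw [hG]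
    exact hx
  have hninv : (n : ℂ)⁻¹ ∈ X.RS S := ⟨n, hn, by rw [mul_inv_cancel₀ hn0]; exact X.R.one_mem⟩
  have key : ∀ y ∈ Submodule.span ℤ (G : Set V.C),
      (n : ℂ)⁻¹ • y ∈ AddSubgroup.closure {y : V.C | ∃ r ∈ X.RS S, ∃ s ∈ G, y = r • s} := by
    intro y hy
    induction hy using Submodule.span_induction with
    | mem y hy => exact AddSubgroup.subset_closure ⟨_, hninv, y, hy, rfl⟩
    | zero =>
      rw [smul_zero]
      exact AddSubgroup.zero_mem _
    | add y z _ _ hy hz =>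
      rw [smul_add]
      exact AddSubgroup.add_mem _ hy hz
    | smul a y _ hy =>
      rw [smul_comm]
      exact AddSubgroup.zsmul_mem _ hy a
  have h1 := key _ hx'
  rwa [smul_smul, inv_mul_cancel₀ hn0, one_smul] at h1

/-- The hermitian form. -/
noncomputable def HV (X : Coh) (V : HLat) (x y : V.C) : ℂ := V.qC x (V.conj y) / X.c0

section HV

variable {X : Coh} {V : HLat}

theorem HV_add_left (x y z : V.C) : HV X V (x + y) z = HV X V x z + HV X V y z := by
  unfold HV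
  rw [Lat.qC_add_left, add_div]

theorem HV_add_right (x y z : V.C) : HV X V x (y + z) = HV X V x y + HV X V x z := by
  unfold HV
  rw [Lat.conj_add, Lat.qC_add_right, add_div]

theorem HV_smul_left (a : ℂ) (x y : V.C) : HV X V (a • x) y = a * HV X V x y := by
  unfold HV
  rw [Lat.qC_smul_left, mul_div_assoc]

theorem HV_smul_right (a : ℂ) (x y : V.C) :
    HV X V x (a • y) = starRingEnd ℂ a * HV X V x y := by
  unfold HV
  rw [Lat.conj_smul, Lat.qC_smul_right, mul_div_assoc]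

/-- The values of the form are eigenvalues. -/
theorem HV_eig {f g : X.T.Hom V.toLat} {e : X.T.Hom X.T}
    (he : ∀ s t, V.q (f s) (g t) = X.T.q (e s) t) {z : ℂ} (hz : mapC e X.om = z • X.om) :
    HV X V (mapC f X.om) (mapC g X.om) = z := by
  unfold HV
  have h1 := qC_ext (L := V.toLat) (M := X.T) f g e (LinearMap.id : X.T.Hom X.T) 1
    (fun a b => by rw [he, one_mul]; rfl) X.om (X.T.conj X.om)
  rw [mapC_id, Int.cast_one, one_mul, hz, Lat.qC_smul_left, ← mapC_conj] at h1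
  rw [h1]
  exact mul_div_cancel_right₀ _ X.c0_ne

theorem HV_mem_R {x y : V.C} (hx : x ∈ LV X V) (hy : y ∈ LV X V) : HV X V x y ∈ X.R := by
  obtain ⟨f, hf, rfl⟩ := mem_LV.mp hx
  obtain ⟨g, hg, rfl⟩ := mem_LV.mp hy
  obtain ⟨e, he, hfg⟩ := hf.pairing hg
  obtain ⟨z, hz⟩ := X.exists_eig he
  rw [HV_eig hfg hz]
  exact ⟨e, he, hz⟩

theorem HV_mem_K {S : Submonoid ℤ} (hS : ∀ n ∈ S, n ≠ 0) {x y : V.C} (hx : x ∈ LS X S V)
    (hy : y ∈ LS X S V) : HV X V x y ∈ X.K := by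
  obtain ⟨n, hn, hx⟩ := hx
  obtain ⟨m, hm, hy⟩ := hy
  refine ⟨n * m, mul_ne_zero (hS n hn) (hS m hm), ?_⟩
  have h1 := HV_mem_R hx hy
  rw [HV_smul_left, HV_smul_right] at h1
  simp only [map_intCast] at h1
  push_cast
  rw [mul_assoc]
  exact h1

end HV

/-- **Nondegeneracy** on the complex span. -/
theorem HV_nondeg {X : Coh} {V : HLat} {z : V.C}
    (hz : z ∈ Submodule.span ℂ (LV X V : Set V.C)) (hz0 : z ≠ 0) :
    ∃ y ∈ LV X V, HV X V z y ≠ 0 := by
  obtain ⟨Q, hQs, hQo, hQp⟩ := V.polarizable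
  -- `z` is of type `(3,1)`
  have hz3 : V.Is 3 z := by
    have : Submodule.span ℂ (LV X V : Set V.C) ≤ V.H 3 := by
      rw [Submodule.span_le]
      rintro _ ⟨f, hf, rfl⟩
      exact hf.mor 3 _ X.om_isT
    exact this hz
  obtain ⟨r, hr, hQz⟩ := hQp 3 z hz3 hz0
  have hQne : extC Q z (V.conj z) ≠ 0 := by
    intro h
    rw [h, mul_zero] at hQz
    exact hr.ne' (by exact_mod_cast hQz.symm)
  -- some `f` with `Q(z, conj f(ω)) ≠ 0`
  have h1 : ∃ w ∈ LV X V, extC Q z (V.conj w) ≠ 0 := by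
    by_contra hcon
    push Not at hcon
    apply hQne
    have key : ∀ w ∈ Submodule.span ℂ (LV X V : Set V.C), extC Q z (V.conj w) = 0 := by
      intro w hw
      induction hw using Submodule.span_induction with
      | mem w hw => exact hcon w hw
      | zero =>
        rw [Lat.conj_zero]
        exact map_zero _
      | add a b _ _ ha hb =>
        rw [Lat.conj_add]
        have : extC Q z (V.conj a + V.conj b) = extC Q z (V.conj a) + extC Q z (V.conj b) :=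
          map_add _ _ _
        rw [this, ha, hb, add_zero]
      | smul c a _ ha =>
        rw [Lat.conj_smul]
        have : extC Q z (starRingEnd ℂ c • V.conj a) = starRingEnd ℂ c * extC Q z (V.conj a) :=
          map_smul _ _ _
        rw [this, ha, mul_zero]
    exact key z hz
  obtain ⟨w, hw, hQw⟩ := h1
  obtain ⟨f, hf, rfl⟩ := mem_LV.mp hw
  -- the lattice with the form `Q`
  let VQ : Lat := { V := V.V, form := Q, symm := hQs }
  obtain ⟨N, hN, hrep⟩ := X.exists_N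
  -- `k : V → T` with `q(k v, t) = N Q(v, f t)`
  obtain ⟨k, hk⟩ := X.exists_lin (A := V.V) (N • ((LinearMap.lcomp ℤ ℤ f) ∘ₗ Q)) (by
    intro v
    obtain ⟨s, hs⟩ := hrep ((Q v) ∘ₗ f)
    refine ⟨s, fun t => ?_⟩
    rw [hs]
    rfl)
  have hk' : ∀ v t, X.T.q (k v) t = N * VQ.q v (f t) := fun v t => (hk v t).symm
  -- `g : T → V` with `q(v, g t) = q(k v, t)`
  have hg0 : ∀ t : X.T.V, ∃ v : V.V, ∀ u, V.q v u = X.T.q (k u) t := by
    intro t
    obtain ⟨v, hv⟩ := V.unimod.2 ((X.T.form.flip t) ∘ₗ k)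
    exact ⟨v, hv⟩
  choose g hg using hg0
  have huniq : ∀ v w : V.V, (∀ a, V.q v a = V.q w a) → v = w := by
    intro v w h
    rw [← sub_eq_zero]
    apply V.unimod.1
    intro y
    rw [sub_eq_add_neg, Lat.q_add_left, ← neg_one_zsmul, Lat.q_smul_left, h]
    ring
  let G : X.T.Hom V.toLat := (AddMonoidHom.mk' g (by
    intro a b
    apply huniq
    intro u
    rw [hg, Lat.q_add_left, hg, hg, Lat.q_add_right])).toIntLinearMap
  have hG : ∀ v t, V.q v (G t) = X.T.q (k v) t := by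
    intro v t
    rw [Lat.q_symm]
    exact hg t v
  let k' : V.Hom X.T := k
  -- complex versions
  have cG : ∀ (x : V.C) (y : X.T.C), V.qC x (mapC G y) = X.T.qC (mapC k' x) y := by
    intro x y
    have h2 := qC_ext (L := V.toLat) (M := X.T) (LinearMap.id : V.Hom V.toLat) G k'
      (LinearMap.id : X.T.Hom X.T) 1 (fun a b => by rw [one_mul]; exact hG a b) x y
    rwa [mapC_id, mapC_id, Int.cast_one, one_mul] at h2
  have ck : ∀ (x : V.C) (y : X.T.C),
      X.T.qC (mapC k' x) y = N * extC Q x (mapC f y) := by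
    intro x y
    have h2 := qC_ext (A := V.toLat) (L := X.T) (M := VQ) k' (LinearMap.id : X.T.Hom X.T)
      (LinearMap.id : VQ.Hom VQ) f N (fun a b => hk' a b) x y
    rw [mapC_id] at h2
    rw [h2]
    congr 1
    show VQ.qC (mapC (LinearMap.id : VQ.Hom VQ) x) (mapC f y) = _
    rw [mapC_id]
    rfl
  have hGM : IsM X V G := by
    refine ⟨?_, ?_⟩
    · intro p x hx
      apply V.is_of_orth
      intro r y hr hy
      rw [cG, ck]
      have : extC Q y (mapC f x) = 0 := hQo r p y _ hy (hf.mor p x hx) (by omega)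
      rw [this, mul_zero]
    · intro v _
      exact ⟨k v, fun t => hG v t⟩
  refine ⟨mapC G X.om, mem_LV.mpr ⟨G, hGM, rfl⟩, ?_⟩
  unfold HV
  rw [mapC_conj, cG, ck, ← mapC_conj]
  apply div_ne_zero _ X.c0_ne
  apply mul_ne_zero
  · exact_mod_cast hN.ne'
  · exact hQw

theorem HV_nondeg_LS {X : Coh} {S : Submonoid ℤ} (hS : ∀ n ∈ S, n ≠ 0) {V : HLat} {z : V.C}
    (hz : z ∈ Submodule.span ℂ (LS X S V : Set V.C)) (hz0 : z ≠ 0) :
    ∃ y ∈ LS X S V, HV X V z y ≠ 0 := by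
  have h1 : Submodule.span ℂ (LS X S V : Set V.C) ≤ Submodule.span ℂ (LV X V : Set V.C) := by
    rw [Submodule.span_le]
    rintro x ⟨n, hn, hx⟩
    have hn0 : (n : ℂ) ≠ 0 := by exact_mod_cast hS n hn
    have h2 := Submodule.smul_mem _ (n : ℂ)⁻¹
      (Submodule.subset_span (R := ℂ) (s := (LV X V : Set V.C)) hx)
    rwa [smul_smul, inv_mul_cancel₀ hn0, one_smul] at h2
  obtain ⟨y, hy, h⟩ := HV_nondeg (h1 hz) hz0
  exact ⟨y, LV_le_LS hy, h⟩

/-- Functoriality. -/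
theorem LS_map {X : Coh} {S : Submonoid ℤ} {V W : HLat} {p : V.Hom W.toLat}
    (hp : V.Mor W p) {z : V.C} (hz : z ∈ LS X S V) : mapC p z ∈ LS X S W := by
  obtain ⟨n, hn, hz⟩ := hz
  refine ⟨n, hn, ?_⟩
  obtain ⟨f, hf, hfz⟩ := mem_LV.mp hz
  refine mem_LV.mpr ⟨p ∘ₗ f, hf.comp hp, ?_⟩
  rw [mapC_comp, hfz, mapC_smul]

/-- Comparison of the forms. -/
theorem HV_map {X : Coh} {A B : HLat} {p r : A.Hom B.toLat} {n : ℤ}
    (h : ∀ x y, B.q (p x) (r y) = n * A.q x y) (x y : A.C) :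
    HV X B (mapC p x) (mapC r y) = n * HV X A x y := by
  unfold HV
  have h2 := qC_ext (L := B.toLat) (M := A.toLat) p r (LinearMap.id : A.Hom A.toLat)
    (LinearMap.id : A.Hom A.toLat) n (fun a b => h a b) x (A.conj y)
  rw [mapC_id, mapC_id] at h2
  rw [mapC_conj, h2, mul_div_assoc]

/-- Orthogonality of the images. -/
theorem HV_map_zero {X : Coh} {A A' B : HLat} {p : A.Hom B.toLat} {r : A'.Hom B.toLat}
    (h : ∀ x y, B.q (p x) (r y) = 0) (x : A.C) (y : A'.C) :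
    HV X B (mapC p x) (mapC r y) = 0 := by
  unfold HV
  have h2 := qC_ext (L := B.toLat) (M := B.toLat) p r p r 0
    (fun a b => by rw [h, zero_mul]) x (A'.conj y)
  rw [mapC_conj, h2]
  simp

end H91.VG
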