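import Pool.Agent.H91.VG.XBase

/-!
# The hermitian lattice of morphisms `T_X → V`
-/

namespace H91.VG

open scoped TensorProduct

/-- `v` is orthogonal to the Hodge classes. -/
def HLat.Tr (V : HLat) (v : V.V) : Prop := ∀ a ∈ V.hdg, V.q a v = 0

theorem HLat.tr_incl (V : HLat) (t : V.T.V) : V.Tr (V.incl t) := fun _ ha => V.incl_orth t ha

/-- The homomorphisms `f : T_X → V` that are used. -/
structure IsM (X : Coh) (V : HLat) (f : X.T.Hom V.toLat) : Prop where
  mor : ∀ p x, X.IsT p x → V.Is p (mapC f x)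
  dual : ∀ v, V.Tr v → ∃ s, ∀ t, V.q v (f t) = X.T.q s t

namespace IsM

variable {X : Coh} {V W : HLat} {f g : X.T.Hom V.toLat}

theorem zero : IsM X V (0 : X.T.Hom V.toLat) where
  mor p x _ := by
    rw [mapC_map_zero]
    exact Submodule.zero_mem _
  dual v _ := ⟨0, fun t => by rw [Lat.q_zero_left, LinearMap.zero_apply, Lat.q_zero_right]⟩

theorem add (hf : IsM X V f) (hg : IsM X V g) : IsM X V (f + g) where
  mor p x hx := by
    rw [mapC_map_add]
    exact Submodule.add_mem _ (hf.mor p x hx) (hg.mor p x hx)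
  dual v hv := by
    obtain ⟨s, hs⟩ := hf.dual v hv
    obtain ⟨s', hs'⟩ := hg.dual v hv
    exact ⟨s + s', fun t => by
      rw [LinearMap.add_apply, Lat.q_add_left, Lat.q_add_right, hs, hs']⟩

theorem smul (n : ℤ) (hf : IsM X V f) : IsM X V (n • f) where
  mor p x hx := by
    rw [mapC_map_smul]
    exact Submodule.smul_of_tower_mem _ n (hf.mor p x hx)
  dual v hv := by
    obtain ⟨s, hs⟩ := hf.dual v hv
    exact ⟨n • s, fun t => by rw [LinearMap.smul_apply, Lat.q_smul_left, Lat.q_smul_right, hs]⟩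

/-- Functoriality. -/
theorem comp {p : V.Hom W.toLat} (hp : V.Mor W p) (hf : IsM X V f) : IsM X W (p ∘ₗ f) where
  mor r x hx := by
    rw [mapC_comp]
    exact hp r _ (hf.mor r x hx)
  dual w hw := by
    obtain ⟨p', hp'⟩ := V.exists_adjoint p
    have h1 : V.Tr (p' w) := by
      intro a ha
      rw [Lat.q_symm, hp', Lat.q_symm]
      exact hw _ (hp.hdg ha)
    obtain ⟨s, hs⟩ := hf.dual _ h1
    exact ⟨s, fun t => by rw [LinearMap.comp_apply, ← hp', hs]⟩

/-- The image is orthogonal to the Hodge classes. -/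
theorem tr (hf : IsM X V f) (t : X.T.V) : V.Tr (f t) := by
  intro a ha
  have h1 : (V.form a) ∘ₗ f = 0 := by
    refine X.functional_eq_zero _ V.toLat a f (fun t => rfl) ?_
    intro x hx
    exact V.qC_orth (p := 2) (r := 3) ha (hf.mor 3 x hx) (by norm_num)
  exact LinearMap.congr_fun h1 t

/-- The endomorphism `g^* f`. -/
theorem pairing (hf : IsM X V f) (hg : IsM X V g) : ∃ e : X.T.Hom X.T, X.InO e ∧
    ∀ s t, V.q (f s) (g t) = X.T.q (e s) t := by
  obtain ⟨e, he⟩ := X.exists_lin ((LinearMap.lcomp ℤ ℤ g) ∘ₗ V.form ∘ₗ f) (by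
    intro s
    obtain ⟨s', hs'⟩ := hg.dual (f s) (hf.tr s)
    exact ⟨s', fun t => hs' t⟩)
  have he' : ∀ s t, V.q (f s) (g t) = X.T.q (e s) t := he
  refine ⟨e, ⟨?_, ?_⟩, he'⟩
  · intro p x hx
    apply X.isT_of_orth
    intro r z hr hz
    have h1 := qC_ext (L := V.toLat) (M := X.T) f g e (LinearMap.id : X.T.Hom X.T) 1
      (fun a b => by rw [he', one_mul]; rfl) x z
    rw [mapC_id, Int.cast_one, one_mul] at h1
    rw [← h1]
    exact V.qC_orth (hf.mor p x hx) (hg.mor r z hz) (by omega)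
  · intro k t ht t'
    rw [← he', Lat.q_symm]
    obtain ⟨s', hs'⟩ := hf.dual (g t') (hg.tr t')
    rw [hs', Lat.q_symm]
    exact ht s'

end IsM

namespace Coh

variable (X : Coh)

/-- A generator of `H^{3,1}`. -/
noncomputable def om : X.T.C := X.exists_omega.choose

theorem om_isT : X.IsT 3 X.om := X.exists_omega.choose_spec.1

theorem om_ne : X.om ≠ 0 := X.exists_omega.choose_spec.2.1

theorem om_span {x : X.T.C} (hx : X.IsT 3 x) : ∃ c : ℂ, x = c • X.om :=
  X.exists_omega.choose_spec.2.2 x hx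

theorem hom_eq_zero_of_om {L : Lat} {f : X.T.Hom L} (h : mapC f X.om = 0) : f = 0 := by
  apply X.hom_eq_zero
  intro x hx
  obtain ⟨c, rfl⟩ := X.om_span hx
  rw [mapC_smul, h, smul_zero]

theorem hom_ext_of_om {L : Lat} {f g : X.T.Hom L} (h : mapC f X.om = mapC g X.om) : f = g := by
  rw [← sub_eq_zero]
  apply X.hom_eq_zero_of_om
  rw [sub_eq_add_neg, mapC_map_add, mapC_map_neg, h, add_neg_cancel]

/-- The number `q(ω, conj ω)`. -/
noncomputable def c0 : ℂ := X.T.qC X.om (X.T.conj X.om)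

theorem c0_eq : ∃ r : ℝ, 0 < r ∧ X.c0 = -(r : ℂ) := by
  have h0 : mapC X.incl X.om ≠ 0 := by
    intro h
    apply X.om_ne
    apply mapC_injective X.incl_injective
    rw [h, mapC_zero]
  obtain ⟨r, hr, h⟩ := X.neg _ X.om_isT h0
  refine ⟨r, hr, ?_⟩
  rw [c0, ← h, mapC_conj, X.qC_incl]

theorem c0_ne : X.c0 ≠ 0 := by
  obtain ⟨r, hr, h⟩ := X.c0_eq
  rw [h]
  simpa using hr.ne'

theorem c0_conj : starRingEnd ℂ X.c0 = X.c0 := by
  obtain ⟨r, hr, h⟩ := X.c0_eq
  rw [h]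
  simp

theorem inO_zero : X.InO (0 : X.T.Hom X.T) := by
  refine ⟨?_, ?_⟩
  · intro p x _
    rw [mapC_map_zero]
    show X.Is p (mapC X.incl 0)
    rw [mapC_zero]
    exact Submodule.zero_mem _
  · intro k t _ t'
    rw [LinearMap.zero_apply, Lat.q_zero_left]
    exact dvd_zero k

theorem inO_one : X.InO (LinearMap.id : X.T.Hom X.T) := by
  refine ⟨?_, fun k t ht => ht⟩
  intro p x hx
  rw [mapC_id]
  exact hx

theorem isT_add {p : ℤ} {x y : X.T.C} (hx : X.IsT p x) (hy : X.IsT p y) : X.IsT p (x + y) := by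
  show X.Is p (mapC X.incl (x + y))
  rw [mapC_add]
  exact Submodule.add_mem _ hx hy

theorem isT_smul {p : ℤ} {x : X.T.C} (c : ℂ) (hx : X.IsT p x) : X.IsT p (c • x) := by
  show X.Is p (mapC X.incl (c • x))
  rw [mapC_smul]
  exact Submodule.smul_mem _ c hx

theorem inO_add {e f : X.T.Hom X.T} (he : X.InO e) (hf : X.InO f) : X.InO (e + f) := by
  refine ⟨?_, ?_⟩
  · intro p x hx
    rw [mapC_map_add]
    exact X.isT_add (he.1 p x hx) (hf.1 p x hx)
  · intro k t ht t'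
    rw [LinearMap.add_apply, Lat.q_add_left]
    exact dvd_add (he.2 k t ht t') (hf.2 k t ht t')

theorem inO_smul (n : ℤ) {e : X.T.Hom X.T} (he : X.InO e) : X.InO (n • e) := by
  refine ⟨?_, ?_⟩
  · intro p x hx
    have h1 : mapC (n • e : X.T.Hom X.T) x = (n : ℂ) • mapC e x := by
      rw [mapC_map_smul, Int.cast_smul_eq_zsmul]
    rw [h1]
    exact X.isT_smul _ (he.1 p x hx)
  · intro k t ht t'
    rw [LinearMap.smul_apply, Lat.q_smul_left]
    exact Dvd.dvd.mul_left (he.2 k t ht t') n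

theorem inO_comp {e f : X.T.Hom X.T} (he : X.InO e) (hf : X.InO f) : X.InO (e ∘ₗ f) := by
  refine ⟨?_, ?_⟩
  · intro p x hx
    rw [mapC_comp]
    exact he.1 p _ (hf.1 p x hx)
  · intro k t ht t'
    rw [LinearMap.comp_apply]
    exact he.2 k (f t) (hf.2 k t ht) t'

/-- The eigenvalue of an element of `O_X`. -/
theorem exists_eig {e : X.T.Hom X.T} (he : X.InO e) : ∃ z : ℂ, mapC e X.om = z • X.om :=
  X.om_span (he.1 3 _ X.om_isT)

/-- The adjoint of an element of `O_X`. -/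
theorem inO_adj {e : X.T.Hom X.T} (he : X.InO e) : ∃ e' : X.T.Hom X.T, X.InO e' ∧
    ∀ s t, X.T.q s (e t) = X.T.q (e' s) t := by
  obtain ⟨N, hN, hrep⟩ := X.exists_N
  obtain ⟨e', he'⟩ := X.exists_lin (A := X.T.V) ((LinearMap.lcomp ℤ ℤ e) ∘ₗ X.T.form) (by
    intro s
    let l : X.T.V →ₗ[ℤ] ℤ := (X.T.form s) ∘ₗ e
    obtain ⟨s', hs'⟩ := hrep l
    have hl : ∀ t, l t = X.T.q s (e t) := fun t => rfl
    obtain ⟨s'', hs''⟩ : ∃ s'', s' = N • s'' := by
      apply X.exists_div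
      intro l₀
      obtain ⟨t₀, ht₀⟩ := hrep l₀
      have h1 : N ∣ X.T.q (e t₀) s := he.2 N t₀ (fun t' => ⟨_, ht₀ t'⟩) s
      obtain ⟨c, hc⟩ := h1
      have h2 : N * l₀ s' = N * (N * c) := by
        rw [← ht₀, Lat.q_symm, hs', hl, Lat.q_symm, hc]
      exact ⟨c, mul_left_cancel₀ hN.ne' h2⟩
    refine ⟨s'', fun t => ?_⟩
    have h3 := hs' t
    rw [hs'', Lat.q_smul_left, hl] at h3
    exact (mul_left_cancel₀ hN.ne' h3).symm)
  have hadj : ∀ s t, X.T.q s (e t) = X.T.q (e' s) t := he'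
  refine ⟨e', ⟨?_, ?_⟩, hadj⟩
  · intro p x hx
    apply X.isT_of_orth
    intro r z hr hz
    have h1 := qC_ext (L := X.T) (M := X.T) (LinearMap.id : X.T.Hom X.T) e e'
      (LinearMap.id : X.T.Hom X.T) 1 (fun a b => by rw [one_mul]; exact hadj a b) x z
    rw [mapC_id, mapC_id, Int.cast_one, one_mul] at h1
    rw [← h1, ← X.qC_incl]
    exact X.qC_orth hx (he.1 r z hz) (by omega)
  · intro k t ht t'
    rw [← hadj]
    exact ht _

end Coh

/-- Composition with elements of `O_X`. -/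
theorem IsM.comp_O {X : Coh} {V : HLat} {f : X.T.Hom V.toLat} (hf : IsM X V f)
    {e : X.T.Hom X.T} (he : X.InO e) : IsM X V (f ∘ₗ e) where
  mor p x hx := by
    rw [mapC_comp]
    exact hf.mor p _ (he.1 p x hx)
  dual v hv := by
    obtain ⟨s, hs⟩ := hf.dual v hv
    obtain ⟨e', _, he'⟩ := X.inO_adj he
    exact ⟨e' s, fun t => by rw [LinearMap.comp_apply, hs, he']⟩

end H91.VG
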