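import Pool.Agent.H91.VG.End

/-!
# L-equivalent Verra fourfolds have Hodge isometric transcendental lattices
-/

namespace H91.VG

open scoped TensorProduct

namespace Ctx

variable {X : Coh} (c : Ctx X)

theorem mem_M (V : HLat) (x : (c.amb V).toHerm.E) :
    x ∈ (c.amb V).toHerm.M ↔ (x.1 : V.C) ∈ LS X c.S V := Iff.rfl

/-- **Equal invariants give a vector of length one.** -/
theorem exists_unit {Y : Coh} {V W : HLat} (hX : Middle X.toHLat V) (h : c.chi V = c.chi W) :
    ∃ z : W.C, z ∈ LS X c.S W ∧ HV X W z z = 1 := by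
  obtain ⟨b, hb, hspan⟩ := exists_gen hX c.S c.hS
  let H := (c.amb V).toHerm
  let H' := (c.amb W).toHerm
  have hD : H.D = H'.D := by
    have h1 := congrArg Prod.fst h
    exact Additive.ofMul.injective h1
  have hr : H.rank = H'.rank := by
    have h1 := congrArg Prod.snd h
    have h2 : (H.rank : ℤ) = H'.rank := h1
    exact_mod_cast h2
  have hbL : b ∈ LS X c.S V := (hspan b).mpr ⟨1, Subring.one_mem _, (one_smul _ _).symm⟩
  let bE : H.E := ⟨b, (c.amb V).mem_Esub_of_mem hbL⟩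
  have hM : ∀ x : H.E, x ∈ H.M ↔ ∃ r : c.Rg, x = r • bE := by
    intro x
    rw [c.mem_M]
    constructor
    · intro hx
      obtain ⟨r, hr, hrx⟩ := (hspan _).mp hx
      exact ⟨⟨r, hr⟩, Subtype.ext hrx⟩
    · rintro ⟨r, rfl⟩
      exact (hspan _).mpr ⟨r.1, r.2, rfl⟩
  have hbE0 : bE ≠ 0 := by
    intro h0
    have h1 : H.h bE bE = 1 := hb
    rw [h0, H.zero_left] at h1
    exact zero_ne_one h1
  have hrank : H.rank = 1 := by
    show Module.finrank c.Kg H.E = 1
    apply finrank_eq_one bE hbE0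
    intro x
    have hx : x ∈ Submodule.span c.Kg (H.M : Set H.E) := by
      rw [H.span]
      exact Submodule.mem_top
    have hle : Submodule.span c.Kg (H.M : Set H.E) ≤ Submodule.span c.Kg {bE} := by
      rw [Submodule.span_le]
      intro y hy
      obtain ⟨r, rfl⟩ := (hM y).mp hy
      have h1 : (r • bE : H.E) = (algebraMap c.Rg c.Kg r) • bE := (algebraMap_smul _ _ _).symm
      rw [SetLike.mem_coe, h1]
      exact Submodule.smul_mem _ _ (Submodule.mem_span_singleton_self bE)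
    obtain ⟨a, ha⟩ := Submodule.mem_span_singleton.mp (hle hx)
    exact ⟨a, ha⟩
  obtain ⟨x, hx, hx1, _⟩ := HermMod.exists_unit_vector H H' hD bE hb hM hrank (hr ▸ hrank)
  exact ⟨x.1, hx, hx1⟩

end Ctx

/-- **(a)** Rational Hodge isometry. -/
theorem rat_main (D : VerraData) (X Y : D.Verra) (h : D.LEq X Y) :
    RatHodgeIsometric (D.coh X).toHLat (D.coh Y).toHLat := by
  let c : Ctx (D.coh X) :=
    { S := Coh.Sall
      hS := fun n hn => Coh.mem_Sall.mp hn
      hD := (D.coh X).isDedekind_all }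
  obtain ⟨z, hz, h1⟩ := c.exists_unit (Y := D.coh Y) (D.ev_coh X) (c.chi_eq D X Y h)
  exact ratHodgeIsometric (D.ev_coh Y) c.hS hz h1

/-- **(b)** Integral Hodge isometry. -/
theorem int_main (D : VerraData) (X Y : D.Verra) (h : D.LEq X Y)
    (hO : OIntClosed (D.coh X).toHLat) :
    HodgeIsometric (D.coh X).toHLat (D.coh Y).toHLat := by
  let c : Ctx (D.coh X) :=
    { S := ⊥
      hS := fun n hn => by
        rw [Submonoid.mem_bot] at hn
        rw [hn]
        exact one_ne_zero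
      hD := (D.coh X).isDedekind_R hO }
  obtain ⟨z, hz, h1⟩ := c.exists_unit (Y := D.coh Y) (D.ev_coh X) (c.chi_eq D X Y h)
  exact hodgeIsometric (D.ev_coh Y) hz h1

/-- `End_Hdg(T_X) = ℤ` implies that `O_X = ℤ` is integrally closed. -/
theorem oIntClosed_of_endZ {A : Coh} (h : EndZ A.toHLat) : OIntClosed A.toHLat := by
  intro e n he hn hp
  obtain ⟨m, hm⟩ := h e he
  -- `m / n` is integral over `ℤ`
  have h1 : e = (m • LinearMap.id : A.T.Hom A.T) := by
    ext t
    exact hm t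
  have hdvd : n ∣ m := by
    obtain ⟨p, hp, hpe⟩ := hp
    have h2 := A.eig_aeval (e := e) (z := (m : ℂ)) (by
      rw [h1, mapC_map_smul, mapC_id, Int.cast_smul_eq_zsmul]) (p.scaleRoots n)
    rw [hpe] at h2
    have h3 : Polynomial.aeval (m : ℂ) (p.scaleRoots n) = 0 := by
      have h4 : (Polynomial.aeval (m : ℂ) (p.scaleRoots n)) • A.om = 0 := by
        rw [← h2]
        exact mapC_map_zero _
      exact (smul_eq_zero.mp h4).resolve_right A.om_ne
    have hn0 : (n : ℂ) ≠ 0 := by exact_mod_cast hn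
    have hnQ : (n : ℚ) ≠ 0 := by exact_mod_cast hn
    -- transfer to `ℚ`
    have h5 : Polynomial.aeval (m : ℚ) (p.scaleRoots n) = 0 := by
      have h6 : Polynomial.aeval ((algebraMap ℚ ℂ) (m : ℚ)) (p.scaleRoots n)
          = (algebraMap ℚ ℂ) (Polynomial.aeval (m : ℚ) (p.scaleRoots n)) :=
        Polynomial.aeval_algebraMap_apply ℂ (m : ℚ) (p.scaleRoots n)
      have h7 : (algebraMap ℚ ℂ) (m : ℚ) = (m : ℂ) := by simp
      rw [h7, h3] at h6
      exact (map_eq_zero _).mp h6.symm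
    have h8 : IsIntegral ℤ ((m : ℚ) / n) := by
      refine ⟨p, hp, ?_⟩
      have h9 := Polynomial.scaleRoots_eval₂_eq_zero_of_eval₂_div_eq_zero
        (p := p) (f := algebraMap ℤ ℚ)
      have h10 : Polynomial.eval₂ (algebraMap ℤ ℚ) ((n : ℚ) * ((m : ℚ) / n)) (p.scaleRoots n)
          = (n : ℚ) ^ p.natDegree * Polynomial.eval₂ (algebraMap ℤ ℚ) ((m : ℚ) / n) p := by
        have := Polynomial.scaleRoots_eval₂_mul (p := p) (f := algebraMap ℤ ℚ)
          ((m : ℚ) / n) n
        simpa using this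
      rw [mul_div_cancel₀ _ hnQ] at h10
      have h11 : Polynomial.eval₂ (algebraMap ℤ ℚ) (m : ℚ) (p.scaleRoots n) = 0 := h5
      rw [h11] at h10
      exact (mul_eq_zero.mp h10.symm).resolve_left (pow_ne_zero _ hnQ)
    obtain ⟨k, hk⟩ := IsIntegrallyClosed.isIntegral_iff.mp h8
    refine ⟨k, ?_⟩
    have h12 : (k : ℚ) = (m : ℚ) / n := hk
    field_simp at h12
    have h13 : (m : ℚ) = n * k := by rw [← h12]; ring
    exact_mod_cast h13
  obtain ⟨k, rfl⟩ := hdvd
  refine ⟨k • LinearMap.id, A.inO_smul k A.inO_one, fun t => ?_⟩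
  rw [hm, mul_smul]
  rfl

end H91.VG
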