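import Pool.Agent.H91.VG.Lats

/-!
# The ring of eigenvalues
-/

namespace H91.VG

open scoped TensorProduct

namespace Coh

variable (X : Coh)

theorem inO_neg {e : X.T.Hom X.T} (he : X.InO e) : X.InO (-e) := by
  have := X.inO_smul (-1) he
  rwa [neg_one_zsmul] at this

/-- The eigenvalues on `H^{3,1}` of the elements of `O_X`. -/
def R : Subring ℂ where
  carrier := {z | ∃ e, X.InO e ∧ mapC e X.om = z • X.om}
  mul_mem' := by
    rintro a b ⟨e, he, ha⟩ ⟨f, hf, hb⟩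
    refine ⟨e ∘ₗ f, X.inO_comp he hf, ?_⟩
    rw [mapC_comp, hb, mapC_smul, ha, smul_smul, mul_comm]
  one_mem' := ⟨LinearMap.id, X.inO_one, by rw [mapC_id, one_smul]⟩
  add_mem' := by
    rintro a b ⟨e, he, ha⟩ ⟨f, hf, hb⟩
    refine ⟨e + f, X.inO_add he hf, ?_⟩
    rw [mapC_map_add, ha, hb, add_smul]
  zero_mem' := ⟨0, X.inO_zero, by rw [mapC_map_zero, zero_smul]⟩
  neg_mem' := by
    rintro a ⟨e, he, ha⟩
    refine ⟨-e, X.inO_neg he, ?_⟩
    rw [mapC_map_neg, ha, neg_smul]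

theorem mem_R {z : ℂ} : z ∈ X.R ↔ ∃ e, X.InO e ∧ mapC e X.om = z • X.om := Iff.rfl

theorem smul_om_inj {a b : ℂ} (h : a • X.om = b • X.om) : a = b :=
  smul_left_injective ℂ X.om_ne h

theorem R_conj {z : ℂ} (hz : z ∈ X.R) : starRingEnd ℂ z ∈ X.R := by
  obtain ⟨e, he, hz⟩ := hz
  obtain ⟨e', he', hadj⟩ := X.inO_adj he
  obtain ⟨z', hz'⟩ := X.exists_eig he'
  refine ⟨e', he', ?_⟩
  rw [hz']
  congr 1
  have h1 := qC_ext (L := X.T) (M := X.T) (LinearMap.id : X.T.Hom X.T) e e'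
    (LinearMap.id : X.T.Hom X.T) 1 (fun a b => by rw [one_mul]; exact hadj a b)
    X.om (X.T.conj X.om)
  rw [mapC_id, mapC_id, Int.cast_one, one_mul, hz', ← mapC_conj, hz, Lat.conj_smul,
    Lat.qC_smul_left, Lat.qC_smul_right] at h1
  exact (mul_right_cancel₀ X.c0_ne h1).symm

/-- The linear form that computes eigenvalues. -/
noncomputable def ev : (X.T.V →ₗ[ℤ] X.T.V) →ₗ[ℤ] ℂ where
  toFun e := X.T.qC (mapC (L := X.T) (M := X.T) e X.om) (X.T.conj X.om) / X.c0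
  map_add' e f := by
    rw [mapC_map_add (L := X.T) (M := X.T), Lat.qC_add_left, add_div]
  map_smul' n e := by
    rw [mapC_map_smul (L := X.T) (M := X.T), ← Int.cast_smul_eq_zsmul ℂ, Lat.qC_smul_left,
      mul_div_assoc]
    simp

theorem ev_eq {e : X.T.Hom X.T} {z : ℂ} (h : mapC e X.om = z • X.om) : X.ev e = z := by
  show X.T.qC (mapC e X.om) (X.T.conj X.om) / X.c0 = z
  rw [h, Lat.qC_smul_left]
  exact mul_div_cancel_right₀ _ X.c0_ne

/-- `O_X` as a subgroup. -/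
def OS : Submodule ℤ (X.T.V →ₗ[ℤ] X.T.V) where
  carrier := {e | X.InO e}
  add_mem' h h' := X.inO_add h h'
  zero_mem' := X.inO_zero
  smul_mem' n _ h := X.inO_smul n h

theorem mem_map_ev {z : ℂ} : z ∈ X.OS.map X.ev ↔ z ∈ X.R := by
  constructor
  · rintro ⟨e, he, rfl⟩
    obtain ⟨z, hz⟩ := X.exists_eig he
    rw [X.ev_eq hz]
    exact ⟨e, he, hz⟩
  · rintro ⟨e, he, hz⟩
    exact ⟨e, he, X.ev_eq hz⟩

theorem R_fg : (AddSubgroup.toIntSubmodule X.R.toAddSubgroup).FG := by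
  have h1 : AddSubgroup.toIntSubmodule X.R.toAddSubgroup = X.OS.map X.ev := by
    ext z
    exact X.mem_map_ev.symm
  rw [h1]
  exact (IsNoetherian.noetherian X.OS).map X.ev

/-- A nonzero element of `R` divides a nonzero integer. -/
theorem exists_mul_eq_int {z : ℂ} (hz : z ∈ X.R) (hz0 : z ≠ 0) :
    ∃ n : ℤ, n ≠ 0 ∧ ∃ w ∈ X.R, z * w = n := by
  let N : Submodule ℤ ℂ := AddSubgroup.toIntSubmodule X.R.toAddSubgroup
  have hfg : N.FG := X.R_fg
  have hfin : Module.Finite ℤ N := Module.Finite.iff_fg.mpr hfg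
  let m : N →ₗ[ℤ] N :=
    { toFun := fun w => ⟨z * w, X.R.mul_mem hz w.2⟩
      map_add' := fun a b => Subtype.ext (by simp [mul_add])
      map_smul' := fun n a => Subtype.ext (by simp [mul_left_comm]) }
  have hm : Function.Injective m := by
    intro a b hab
    have h1 : z * (a : ℂ) = z * (b : ℂ) := congrArg Subtype.val hab
    exact Subtype.ext (mul_left_cancel₀ hz0 h1)
  have h1 : Module.finrank ℤ (N ⧸ LinearMap.range m) = 0 := by
    have h2 := Submodule.finrank_quotient_add_finrank (LinearMap.range m)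
    have h3 : Module.finrank ℤ (LinearMap.range m) = Module.finrank ℤ N :=
      LinearMap.finrank_range_of_inj hm
    omega
  rw [Module.finrank_eq_zero_iff] at h1
  obtain ⟨n, hn, h5⟩ := h1 (Submodule.Quotient.mk ⟨1, X.R.one_mem⟩)
  rw [← Submodule.Quotient.mk_smul, Submodule.Quotient.mk_eq_zero] at h5
  obtain ⟨w, hw⟩ := h5
  refine ⟨n, hn, w, w.2, ?_⟩
  have h6 : z * (w : ℂ) = ((n • (⟨1, X.R.one_mem⟩ : N) : N) : ℂ) := congrArg Subtype.val hw
  rw [h6]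
  simp

/-- The field of fractions of `R` inside `ℂ`. -/
def K : Subfield ℂ where
  carrier := {z | ∃ n : ℤ, n ≠ 0 ∧ (n : ℂ) * z ∈ X.R}
  mul_mem' := by
    rintro a b ⟨n, hn, ha⟩ ⟨m, hm, hb⟩
    refine ⟨n * m, mul_ne_zero hn hm, ?_⟩
    have := X.R.mul_mem ha hb
    have h1 : ((n * m : ℤ) : ℂ) * (a * b) = (n * a) * (m * b) := by push_cast; ring
    rw [h1]
    exact this
  one_mem' := ⟨1, one_ne_zero, by simp [X.R.one_mem]⟩
  add_mem' := by
    rintro a b ⟨n, hn, ha⟩ ⟨m, hm, hb⟩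
    refine ⟨n * m, mul_ne_zero hn hm, ?_⟩
    have h1 : ((n * m : ℤ) : ℂ) * (a + b) = m * (n * a) + n * (m * b) := by push_cast; ring
    rw [h1]
    exact X.R.add_mem (X.R.mul_mem (intCast_mem _ _) ha) (X.R.mul_mem (intCast_mem _ _) hb)
  zero_mem' := ⟨1, one_ne_zero, by simp [X.R.zero_mem]⟩
  neg_mem' := by
    rintro a ⟨n, hn, ha⟩
    refine ⟨n, hn, ?_⟩
    rw [mul_neg]
    exact X.R.neg_mem ha
  inv_mem' := by
    rintro a ⟨n, hn, ha⟩
    by_cases h0 : a = 0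
    · subst h0
      exact ⟨1, one_ne_zero, by simp [X.R.zero_mem]⟩
    have hn' : (n : ℂ) ≠ 0 := by exact_mod_cast hn
    obtain ⟨m, hm, w, hw, hzw⟩ := X.exists_mul_eq_int ha (mul_ne_zero hn' h0)
    refine ⟨m, hm, ?_⟩
    have h1 : (m : ℂ) * a⁻¹ = n * w := by
      rw [← hzw]
      field_simp
    rw [h1]
    exact X.R.mul_mem (intCast_mem _ _) hw

theorem mem_K {z : ℂ} : z ∈ X.K ↔ ∃ n : ℤ, n ≠ 0 ∧ (n : ℂ) * z ∈ X.R := Iff.rfl

theorem K_conj {z : ℂ} (hz : z ∈ X.K) : starRingEnd ℂ z ∈ X.K := by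
  obtain ⟨n, hn, h⟩ := hz
  refine ⟨n, hn, ?_⟩
  have := X.R_conj h
  rwa [map_mul, map_intCast] at this

/-- The elements `z` with `n z ∈ R` for some `n ∈ S`. -/
def RS (S : Submonoid ℤ) : Subring ℂ where
  carrier := {z | ∃ n ∈ S, (n : ℂ) * z ∈ X.R}
  mul_mem' := by
    rintro a b ⟨n, hn, ha⟩ ⟨m, hm, hb⟩
    refine ⟨n * m, S.mul_mem hn hm, ?_⟩
    have := X.R.mul_mem ha hb
    have h1 : ((n * m : ℤ) : ℂ) * (a * b) = (n * a) * (m * b) := by push_cast; ring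
    rw [h1]
    exact this
  one_mem' := ⟨1, S.one_mem, by simp [X.R.one_mem]⟩
  add_mem' := by
    rintro a b ⟨n, hn, ha⟩ ⟨m, hm, hb⟩
    refine ⟨n * m, S.mul_mem hn hm, ?_⟩
    have h1 : ((n * m : ℤ) : ℂ) * (a + b) = m * (n * a) + n * (m * b) := by push_cast; ring
    rw [h1]
    exact X.R.add_mem (X.R.mul_mem (intCast_mem _ _) ha) (X.R.mul_mem (intCast_mem _ _) hb)
  zero_mem' := ⟨1, S.one_mem, by simp [X.R.zero_mem]⟩
  neg_mem' := by
    rintro a ⟨n, hn, ha⟩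
    refine ⟨n, hn, ?_⟩
    rw [mul_neg]
    exact X.R.neg_mem ha

theorem mem_RS {S : Submonoid ℤ} {z : ℂ} : z ∈ X.RS S ↔ ∃ n ∈ S, (n : ℂ) * z ∈ X.R := Iff.rfl

theorem R_le_RS (S : Submonoid ℤ) : X.R ≤ X.RS S := fun z hz => ⟨1, S.one_mem, by simpa using hz⟩

theorem RS_conj {S : Submonoid ℤ} {z : ℂ} (hz : z ∈ X.RS S) : starRingEnd ℂ z ∈ X.RS S := by
  obtain ⟨n, hn, h⟩ := hz
  refine ⟨n, hn, ?_⟩
  have := X.R_conj h
  rwa [map_mul, map_intCast] at this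

theorem RS_le_K {S : Submonoid ℤ} (hS : ∀ n ∈ S, n ≠ 0) {z : ℂ} (hz : z ∈ X.RS S) :
    z ∈ X.K := by
  obtain ⟨n, hn, h⟩ := hz
  exact ⟨n, hS n hn, h⟩

theorem mem_RS_bot {z : ℂ} : z ∈ X.RS ⊥ ↔ z ∈ X.R := by
  constructor
  · rintro ⟨n, hn, h⟩
    rw [Submonoid.mem_bot] at hn
    subst hn
    simpa using h
  · exact fun h => X.R_le_RS ⊥ h

end Coh

end H91.VG
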