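import Pool.Agent.H91.VG.Basic

/-!
# The transcendental lattice of a Verra fourfold
-/

namespace H91.VG

open scoped TensorProduct

/-- The same data in the notation of `H91.VF`. -/
noncomputable def Coh.old (X : Coh) : H91.VF.Coh where
  V := X.V
  q := X.form
  symm := X.symm
  hodge := ⟨X.H, X.internal, X.conj_mem⟩
  unimod := X.unimod
  level := X.level
  one := X.one_dim
  orth := X.orth
  neg := X.neg
  a := X.a
  a_hodge := X.a_hodge
  pos := X.pos

namespace Coh

variable (X : Coh)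

theorem tr_eq : X.old.tr = X.form.orthogonal X.hdg := rfl

theorem incl_eq (x : X.T.C) : X.old.incl x = mapC X.incl x := rfl

theorem isT_conj {p : ℤ} {x : X.T.C} (h : X.IsT p x) : X.IsT (4 - p) (X.T.conj x) := by
  have h1 := X.conj_mem p _ h
  rw [mapC_conj] at h1
  exact h1

theorem exists_incl {x : X.C} (hx : X.Is 3 x) : ∃ y : X.T.C, mapC X.incl y = x :=
  X.old.exists_incl hx

theorem exists_omega : ∃ ω : X.T.C, X.IsT 3 ω ∧ ω ≠ 0 ∧
    ∀ x, X.IsT 3 x → ∃ c : ℂ, x = c • ω := by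
  obtain ⟨w, hw, hw0, hs⟩ := X.old.exists_omega
  obtain ⟨ω, hω⟩ := X.exists_incl hw
  refine ⟨ω, ?_, ?_, ?_⟩
  · show X.Is 3 (mapC X.incl ω)
    rw [hω]
    exact hw
  · intro h
    rw [h, mapC_zero] at hω
    exact hw0 hω.symm
  · intro x hx
    obtain ⟨c, hc⟩ := hs _ hx
    refine ⟨c, ?_⟩
    apply mapC_injective X.incl_injective
    rw [mapC_smul, hω]
    exact hc

theorem T_nondeg {s : X.T.V} (h : ∀ t, X.T.q s t = 0) : s = 0 := X.old.tr_nondeg h

theorem exists_N : ∃ N : ℤ, 0 < N ∧ ∀ l : X.T.V →ₗ[ℤ] ℤ, ∃ s, ∀ t, X.T.q s t = N * l t := by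
  classical
  have h1 : Module.finrank ℤ ((X.old.tr →ₗ[ℤ] ℤ) ⧸ LinearMap.range X.old.toDual) = 0 := by
    have h2 := Submodule.finrank_quotient_add_finrank (LinearMap.range X.old.toDual)
    have h3 : Module.finrank ℤ (LinearMap.range X.old.toDual) = Module.finrank ℤ X.old.tr :=
      LinearMap.finrank_range_of_inj X.old.toDual_injective
    have h4 : Module.finrank ℤ (X.old.tr →ₗ[ℤ] ℤ) = Module.finrank ℤ X.old.tr := by
      rw [Module.finrank_linearMap, Module.finrank_self, mul_one]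
    omega
  rw [Module.finrank_eq_zero_iff] at h1
  let b := Module.Free.chooseBasis ℤ (X.old.tr →ₗ[ℤ] ℤ)
  have h2 : ∀ i, ∃ n : ℤ, n ≠ 0 ∧ ∃ s : X.old.tr, ∀ t : X.old.tr, X.old.q s t = n * b i t := by
    intro i
    obtain ⟨n, hn, h5⟩ := h1 (Submodule.Quotient.mk (b i))
    rw [← Submodule.Quotient.mk_smul, Submodule.Quotient.mk_eq_zero] at h5
    obtain ⟨s, hs⟩ := h5
    refine ⟨n, hn, s, fun t => ?_⟩
    rw [← X.old.toDual_apply, hs]
    simp
  choose n hn s hs using h2
  let P : ℤ := ∏ i, n i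
  have hP : P ≠ 0 := Finset.prod_ne_zero_iff.mpr fun i _ => hn i
  refine ⟨P ^ 2, by positivity, ?_⟩
  intro l
  let l' : X.old.tr →ₗ[ℤ] ℤ := l
  let s' : X.old.tr := ∑ i, (P * (∏ j ∈ Finset.univ.erase i, n j) * b.repr l' i) • s i
  refine ⟨s', fun t₀ => ?_⟩
  let t : X.old.tr := t₀
  have h3 : l' = ∑ i, b.repr l' i • b i := (b.sum_repr l').symm
  have h4 : l' t = ∑ i, b.repr l' i * b i t := by
    have h7 := LinearMap.congr_fun h3 t
    rw [LinearMap.sum_apply] at h7
    rw [h7]
    refine Finset.sum_congr rfl fun i _ => ?_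
    rw [LinearMap.smul_apply, smul_eq_mul]
  have h5 : X.old.q (s' : X.old.V) (t : X.old.V)
      = ∑ i, (P * (∏ j ∈ Finset.univ.erase i, n j) * b.repr l' i) * X.old.q (s i) t := by
    simp only [s']
    rw [Submodule.coe_sum, map_sum, LinearMap.sum_apply]
    refine Finset.sum_congr rfl fun i _ => ?_
    rw [Submodule.coe_smul, map_smul, LinearMap.smul_apply, smul_eq_mul]
  show X.old.q (s' : X.old.V) (t : X.old.V) = P ^ 2 * l' t
  rw [h5, h4, Finset.mul_sum]
  refine Finset.sum_congr rfl fun i _ => ?_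
  rw [hs]
  have h6 : n i * ∏ j ∈ Finset.univ.erase i, n j = P :=
    Finset.mul_prod_erase Finset.univ n (Finset.mem_univ i)
  calc P * (∏ j ∈ Finset.univ.erase i, n j) * b.repr l' i * (n i * b i t)
      = P * (n i * ∏ j ∈ Finset.univ.erase i, n j) * (b.repr l' i * b i t) := by ring
    _ = P ^ 2 * (b.repr l' i * b i t) := by rw [h6]; ring

/-- A class of `ℂ ⊗ T_X` is of type `p` if it is orthogonal to all types but `4 - p`. -/
theorem isT_of_orth {p : ℤ} {y : X.T.C}
    (h : ∀ r z, r ≠ 4 - p → X.IsT r z → X.T.qC y z = 0) : X.IsT p y := by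
  refine X.old.mem_of_orth ?_
  intro r hr z hz
  have h1 := h r z hr hz
  have h2 : X.qC (mapC X.incl y) (mapC X.incl z)
      = ((1 : ℤ) : ℂ) * X.T.qC (mapC LinearMap.id y) (mapC LinearMap.id z) :=
    qC_ext X.incl X.incl (LinearMap.id : X.T.Hom X.T) (LinearMap.id : X.T.Hom X.T) 1
      (fun a b => by rw [X.q_incl, one_mul]; rfl) y z
  rw [mapC_id, mapC_id, h1, mul_zero] at h2
  exact h2

theorem qC_incl (x y : X.T.C) : X.qC (mapC X.incl x) (mapC X.incl y) = X.T.qC x y := by
  have h2 : X.qC (mapC X.incl x) (mapC X.incl y)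
      = ((1 : ℤ) : ℂ) * X.T.qC (mapC LinearMap.id x) (mapC LinearMap.id y) :=
    qC_ext X.incl X.incl (LinearMap.id : X.T.Hom X.T) (LinearMap.id : X.T.Hom X.T) 1
      (fun a b => by rw [X.q_incl, one_mul]; rfl) x y
  rw [mapC_id, mapC_id] at h2
  simpa using h2

/-- A functional on `T_X` killing `H^{3,1}` is zero. -/
theorem functional_eq_zero (l : X.T.V →ₗ[ℤ] ℤ) (L : Lat) (v : L.V) (f : X.T.Hom L)
    (hl : ∀ t, l t = L.q v (f t)) (h : ∀ x, X.IsT 3 x → L.qC (L.one v) (mapC f x) = 0) :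
    l = 0 := by
  obtain ⟨w, hw⟩ := X.old.exists_repr l
  have hw' : ∀ t : X.T.V, X.q w (X.incl t) = l t := hw
  have h1 : w ∈ X.hdg := by
    apply X.old.hodge_of_orth
    intro x hx
    obtain ⟨y, rfl⟩ := X.exists_incl hx
    -- compare the two functionals
    have h2 : ∀ y : X.T.C, X.qC (X.one w) (mapC X.incl y) = L.qC (L.one v) (mapC f y) := by
      intro y
      induction y using Lat.C_induction with
      | h1 c t =>
        rw [mapC_smul, mapC_smul, mapC_one, mapC_one, Lat.qC_smul_right, Lat.qC_smul_right,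
          Lat.qC_one_one, Lat.qC_one_one, hw', hl]
      | h2 a b ha hb =>
        rw [mapC_add, mapC_add, Lat.qC_add_right, Lat.qC_add_right, ha, hb]
    exact (h2 y).trans (h y hx)
  ext t
  rw [← hw' t, X.incl_orth t h1]
  rfl

/-- A homomorphism killing `H^{3,1}` is zero. -/
theorem hom_eq_zero {L : Lat} {f : X.T.Hom L} (h : ∀ x, X.IsT 3 x → mapC f x = 0) : f = 0 := by
  classical
  let b := Module.Free.chooseBasis ℤ L.V
  -- a lattice for which the coordinates are values of the form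
  let L' : Lat :=
    { V := L.V
      form := ∑ i, LinearMap.BilinForm.linMulLin (b.coord i) (b.coord i)
      symm := by
        intro x y
        simp [mul_comm] }
  ext t
  apply b.ext_elem
  intro i
  rw [LinearMap.zero_apply, map_zero, Finsupp.zero_apply]
  have h1 : (b.coord i) ∘ₗ f = 0 := by
    refine X.functional_eq_zero _ L' (b i) f ?_ ?_
    · intro t
      simp only [q_eq, L', LinearMap.comp_apply]
      rw [LinearMap.BilinForm.sum_apply]
      simp [LinearMap.BilinForm.linMulLin, Finsupp.single_apply]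
    · intro x hx
      have h2 : mapC (M := L') f x = 0 := h x hx
      rw [h2, Lat.qC_zero_right]
  have h2 := LinearMap.congr_fun h1 t
  simpa using h2

/-- Pointwise represented families of functionals are represented by a homomorphism. -/
theorem exists_lin {A : Type} [AddCommGroup A] (F : A →ₗ[ℤ] (X.T.V →ₗ[ℤ] ℤ))
    (h : ∀ a, ∃ s, ∀ t, F a t = X.T.q s t) :
    ∃ g : A →ₗ[ℤ] X.T.V, ∀ a t, F a t = X.T.q (g a) t := by
  choose g hg using h
  refine ⟨(AddMonoidHom.mk' g ?_).toIntLinearMap, fun a t => hg a t⟩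
  intro a b
  have : g (a + b) - (g a + g b) = 0 := by
    apply X.T_nondeg
    intro t
    rw [sub_eq_add_neg, Lat.q_add_left, ← neg_one_zsmul, Lat.q_smul_left, Lat.q_add_left,
      ← hg, ← hg, ← hg, map_add, LinearMap.add_apply]
    ring
  rwa [sub_eq_zero] at this

/-- Divisibility in `T_X` is detected by functionals. -/
theorem exists_div {s : X.T.V} {n : ℤ} (h : ∀ l : X.T.V →ₗ[ℤ] ℤ, n ∣ l s) :
    ∃ s', s = n • s' := by
  classical
  let b := Module.Free.chooseBasis ℤ X.T.V
  have h1 : ∀ i, ∃ c, b.repr s i = n * c := fun i => h (b.coord i)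
  choose c hc using h1
  refine ⟨∑ i, c i • b i, ?_⟩
  conv_lhs => rw [← b.sum_repr s]
  rw [Finset.smul_sum]
  refine Finset.sum_congr rfl fun i _ => ?_
  rw [hc, mul_smul]

end Coh

end H91.VG
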